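import Pool.Agent.W431.PInv.Nak

/-!
# The base family of forms and its explicit residue functional

Degree `d = c + 2`, `n = k + 1` variables.
-/

namespace Pool.Agent.W431.PInv

open MvPolynomial Matrix

variable {B : Type*} [CommRing B] [Algebra ℂ B] (k c : ℕ)

/-- The base family of forms of degree `c+2` in `k+1` variables. -/
noncomputable def baseForm (t : B) : MvPolynomial (Fin (k + 1)) B :=
  (∑ i : Fin k, (C (algebraMap ℂ B (1 / (c + 2))) * X i.succ ^ (c + 2) -
    X i.succ * X 0 ^ (c + 1))) +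
    C (algebraMap ℂ B ((c + 1) / (c + 2)) * (k + t)) * X 0 ^ (c + 2)

lemma baseForm_homog (t : B) : (baseForm k c t).IsHomogeneous (c + 2) := by
  unfold baseForm
  apply IsHomogeneous.add
  · refine IsHomogeneous.sum _ _ _ fun i _ => ?_
    apply IsHomogeneous.sub
    · have := (isHomogeneous_C (Fin (k+1)) (algebraMap ℂ B (1 / (c + 2)))).mul
        ((isHomogeneous_X B i.succ).pow (c + 2))
      rwa [zero_add, one_mul] at this
    · have := (isHomogeneous_X B i.succ).mul ((isHomogeneous_X B (0 : Fin (k+1))).pow (c + 1))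
      rw [one_mul, add_comm 1 (c + 1)] at this
      exact this
  · have := (isHomogeneous_C (Fin (k+1)) (algebraMap ℂ B ((c + 1) / (c + 2)) * (k + t))).mul
        ((isHomogeneous_X B (0 : Fin (k+1))).pow (c + 2))
    rwa [zero_add, one_mul] at this

lemma am_mul_cast (x : ℂ) (m : ℕ) : algebraMap ℂ B x * (m : B) = algebraMap ℂ B (x * m) := by
  rw [map_mul, map_natCast]

lemma cnz : ((c : ℂ) + 2) ≠ 0 := by
  have : ((c : ℂ) + 2) = ((c + 2 : ℕ) : ℂ) := by push_cast; rfl
  rw [this]; exact_mod_cast (by omega : c + 2 ≠ 0)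

lemma pderiv_succ_base (t : B) (i : Fin k) :
    pderiv i.succ (baseForm k c t) = X i.succ ^ (c + 1) - X 0 ^ (c + 1) := by
  classical
  unfold baseForm
  have h0 : ∀ m : ℕ, pderiv i.succ (X 0 ^ m : MvPolynomial (Fin (k + 1)) B) = 0 := by
    intro m
    rw [pderiv_pow, pderiv_X_of_ne (Fin.succ_ne_zero i).symm, mul_zero]
  have hterm : ∀ j : Fin k, pderiv i.succ (C (algebraMap ℂ B (1 / (c + 2))) * X j.succ ^ (c + 2) -
      X j.succ * X 0 ^ (c + 1) : MvPolynomial (Fin (k + 1)) B) =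
      if j = i then X i.succ ^ (c + 1) - X 0 ^ (c + 1) else 0 := by
    intro j
    rw [map_sub, pderiv_C_mul, pderiv_mul, h0, mul_zero, add_zero, pderiv_pow]
    by_cases h : j = i
    · subst h
      rw [if_pos rfl, pderiv_X_self, mul_one, one_mul]
      congr 1
      have e1 : (((c + 2 : ℕ) : MvPolynomial (Fin (k + 1)) B)) = C ((c + 2 : ℕ) : B) := by
        rw [map_natCast]
      rw [e1, ← mul_assoc, ← C_mul, am_mul_cast]
      have e2 : ((1 / ((c : ℂ) + 2)) * ((c + 2 : ℕ) : ℂ)) = 1 := by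
        push_cast; field_simp [cnz c]
      rw [e2, map_one, C_1, one_mul]
      rfl
    · have hne : j.succ ≠ i.succ := fun hc => h (Fin.succ_injective _ hc)
      rw [if_neg h, pderiv_X_of_ne hne, mul_zero, mul_zero, zero_mul, sub_zero]
  rw [map_add, map_sum, Finset.sum_congr rfl fun j _ => hterm j, pderiv_C_mul, h0, mul_zero,
    add_zero]
  simp

lemma pderiv_zero_base (t : B) :
    pderiv 0 (baseForm k c t) =
      C (-algebraMap ℂ B (c + 1)) * X 0 ^ c * ((∑ i : Fin k, (X i.succ - X 0)) - C t * X 0) := by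
  classical
  unfold baseForm
  have h0 : ∀ (j : Fin k) (m : ℕ), pderiv 0 (X j.succ ^ m : MvPolynomial (Fin (k + 1)) B) = 0 := by
    intro j m
    rw [pderiv_pow, pderiv_X_of_ne (Fin.succ_ne_zero j), mul_zero]
  have h1 : ∀ m : ℕ, pderiv 0 (X 0 ^ (m + 1) : MvPolynomial (Fin (k + 1)) B) =
      C ((m + 1 : ℕ) : B) * X 0 ^ m := by
    intro m
    rw [pderiv_pow, pderiv_X_self, mul_one, map_natCast]
    rfl
  have hterm : ∀ j : Fin k, pderiv 0 (C (algebraMap ℂ B (1 / (c + 2))) * X j.succ ^ (c + 2) -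
      X j.succ * X 0 ^ (c + 1) : MvPolynomial (Fin (k + 1)) B) =
      C (-algebraMap ℂ B (c + 1)) * X 0 ^ c * X j.succ := by
    intro j
    rw [map_sub, pderiv_C_mul, h0, mul_zero, pderiv_mul, pderiv_X_of_ne (Fin.succ_ne_zero j),
      zero_mul, zero_add, h1, zero_sub]
    rw [C_neg]
    have : algebraMap ℂ B ((c : ℂ) + 1) = ((c + 1 : ℕ) : B) := by
      rw [← map_natCast (algebraMap ℂ B)]; push_cast; rfl
    rw [this]
    ring
  rw [map_add, map_sum, Finset.sum_congr rfl fun j _ => hterm j, pderiv_C_mul, h1 (c + 1)]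
  have e1 : (C (algebraMap ℂ B ((c + 1) / (c + 2)) * (k + t)) *
      (C ((c + 1 + 1 : ℕ) : B) * X 0 ^ (c + 1)) : MvPolynomial (Fin (k + 1)) B) =
      C (algebraMap ℂ B (c + 1)) * X 0 ^ c * ((k : MvPolynomial (Fin (k + 1)) B) * X 0 + C t * X 0) := by
    have e2 : algebraMap ℂ B ((c + 1) / (c + 2)) * ((c + 1 + 1 : ℕ) : B) =
        algebraMap ℂ B (c + 1) := by
      rw [am_mul_cast]
      congr 1
      push_cast
      have := cnz c
      field_simp
      ring
    have e3 : (C (algebraMap ℂ B ((c + 1) / (c + 2)) * (k + t)) *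
      (C ((c + 1 + 1 : ℕ) : B) * X 0 ^ (c + 1)) : MvPolynomial (Fin (k + 1)) B) =
      C (algebraMap ℂ B ((c + 1) / (c + 2)) * ((c + 1 + 1 : ℕ) : B)) * C (k + t) * X 0 ^ (c + 1) := by
      rw [C_mul, C_mul]; ring
    rw [e3, e2, C_add, map_natCast]
    ring
  rw [e1, ← Finset.mul_sum, Finset.sum_sub_distrib, Finset.sum_const, Finset.card_univ,
    Fintype.card_fin, nsmul_eq_mul, C_neg]
  ring

lemma pderiv_succ_succ_base (t : B) (i j : Fin k) :
    pderiv i.succ (pderiv j.succ (baseForm k c t)) =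
      if i = j then C (algebraMap ℂ B (c + 1)) * X i.succ ^ c else 0 := by
  classical
  rw [pderiv_succ_base, map_sub]
  have h0 : pderiv i.succ (X 0 ^ (c + 1) : MvPolynomial (Fin (k + 1)) B) = 0 := by
    rw [pderiv_pow, pderiv_X_of_ne (Fin.succ_ne_zero i).symm, mul_zero]
  rw [h0, sub_zero, pderiv_pow]
  by_cases h : i = j
  · subst h
    rw [if_pos rfl, pderiv_X_self, mul_one]
    have : algebraMap ℂ B ((c : ℂ) + 1) = ((c + 1 : ℕ) : B) := by
      rw [← map_natCast (algebraMap ℂ B)]; push_cast; rfl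
    rw [this, map_natCast]
    rfl
  · have hne : j.succ ≠ i.succ := fun hc => h (Fin.succ_injective _ hc).symm
    rw [if_neg h, pderiv_X_of_ne hne, mul_zero]

/-! ### The points -/

/-- a primitive `(c+1)`-st root of unity -/
noncomputable def om : ℂ := Complex.exp (2 * Real.pi * Complex.I / ((c + 1 : ℕ) : ℂ))

lemma om_prim : IsPrimitiveRoot (om c) (c + 1) :=
  Complex.isPrimitiveRoot_exp (c + 1) (by omega)

/-- The points `(1, ζ_1, …, ζ_k)`. -/
noncomputable def pt (κ : Fin k → Fin (c + 1)) : Fin (k + 1) → ℂ :=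
  Fin.cons 1 (fun i => om c ^ (κ i : ℕ))

@[simp] lemma pt_zero (κ : Fin k → Fin (c + 1)) : pt k c κ 0 = 1 := rfl

@[simp] lemma pt_succ (κ : Fin k → Fin (c + 1)) (i : Fin k) :
    pt k c κ i.succ = om c ^ (κ i : ℕ) := rfl

/-- `∑ (ζ_i - 1)`. -/
noncomputable def alp (κ : Fin k → Fin (c + 1)) : ℂ := ∑ i, (om c ^ (κ i : ℕ) - 1)

/-- `λ_ζ = ∑ (ζ_i - 1) - t`. -/
noncomputable def lam (t : B) (κ : Fin k → Fin (c + 1)) : B := algebraMap ℂ B (alp k c κ) - t

/-- evaluation at a point -/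
noncomputable def evp (κ : Fin k → Fin (c + 1)) : MvPolynomial (Fin (k + 1)) B →+* B :=
  MvPolynomial.eval (fun i => algebraMap ℂ B (pt k c κ i))

/-- The residue functional of the base family, multiplied by `∏ λ`. -/
noncomputable def Lam (t : B) (g : MvPolynomial (Fin (k + 1)) B) : B :=
  ∑ κ : Fin k → Fin (c + 1), evp k c κ g * algebraMap ℂ B (∏ i, om c ^ (κ i : ℕ)) *
    ∏ κ' ∈ Finset.univ.erase κ, lam k c t κ'

lemma Lam_add (t : B) (g h : MvPolynomial (Fin (k + 1)) B) :
    Lam k c t (g + h) = Lam k c t g + Lam k c t h := by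
  simp [Lam, add_mul, Finset.sum_add_distrib]

lemma Lam_sub (t : B) (g h : MvPolynomial (Fin (k + 1)) B) :
    Lam k c t (g - h) = Lam k c t g - Lam k c t h := by
  simp [Lam, sub_mul, Finset.sum_sub_distrib]

lemma Lam_sum {ι : Type*} (s : Finset ι) (t : B) (g : ι → MvPolynomial (Fin (k + 1)) B) :
    Lam k c t (∑ i ∈ s, g i) = ∑ i ∈ s, Lam k c t (g i) := by
  classical
  induction s using Finset.induction_on with
  | empty => simp [Lam]
  | insert a s ha ih => rw [Finset.sum_insert ha, Finset.sum_insert ha, Lam_add, ih]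

lemma Lam_C_mul (t : B) (b : B) (g : MvPolynomial (Fin (k + 1)) B) :
    Lam k c t (C b * g) = b * Lam k c t g := by
  unfold Lam
  rw [Finset.mul_sum]
  refine Finset.sum_congr rfl fun κ _ => ?_
  rw [map_mul]
  have : evp k c κ (C b : MvPolynomial (Fin (k + 1)) B) = b := by simp [evp]
  rw [this]; ring

lemma evp_succ (t : B) (κ : Fin k → Fin (c + 1)) (i : Fin k) :
    evp k c κ (pderiv i.succ (baseForm k c t)) = 0 := by
  rw [pderiv_succ_base, map_sub, map_pow, map_pow]
  simp only [evp, eval_X, pt_zero, pt_succ, map_one, one_pow]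
  rw [← map_pow, ← pow_mul, mul_comm, pow_mul, (om_prim c).pow_eq_one, one_pow, map_one, sub_self]

lemma evp_zero (t : B) (κ : Fin k → Fin (c + 1)) :
    evp k c κ (pderiv 0 (baseForm k c t)) = -algebraMap ℂ B (c + 1) * lam k c t κ := by
  rw [pderiv_zero_base]
  simp only [evp, map_mul, map_sub, map_sum, eval_C, map_pow, eval_X, pt_zero, pt_succ, map_one,
    one_pow, mul_one, lam, alp]

/-- Character sum. -/
lemma char_sum {a : Fin k → ℕ} (h : ∃ i, ¬ (c + 1) ∣ a i) :
    ∑ κ : Fin k → Fin (c + 1), ∏ i, om c ^ ((κ i : ℕ) * a i) = 0 := by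
  obtain ⟨i, hi⟩ := h
  have h1 : ∑ κ : Fin k → Fin (c + 1), ∏ i, om c ^ ((κ i : ℕ) * a i) =
      ∏ i, ∑ j : Fin (c + 1), om c ^ ((j : ℕ) * a i) := by
    rw [Finset.prod_univ_sum]
    simp
  rw [h1]
  apply Finset.prod_eq_zero (Finset.mem_univ i)
  have h2 : ∑ j : Fin (c + 1), om c ^ ((j : ℕ) * a i) =
      ∑ j ∈ Finset.range (c + 1), (om c ^ a i) ^ j := by
    rw [Finset.sum_range]
    refine Finset.sum_congr rfl fun j _ => ?_
    rw [← pow_mul, mul_comm]
  rw [h2]
  have h3 : om c ^ a i ≠ 1 := by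
    intro hc
    exact hi ((om_prim c).dvd_of_pow_eq_one _ hc)
  have h4 := mul_geom_sum (om c ^ a i) (c + 1)
  rw [← pow_mul, mul_comm (a i), pow_mul, (om_prim c).pow_eq_one, one_pow, sub_self] at h4
  rcases mul_eq_zero.1 h4 with h5 | h5
  · exact absurd (sub_eq_zero.1 h5) h3
  · exact h5

lemma evp_monomial (κ : Fin k → Fin (c + 1)) (a : Fin (k + 1) →₀ ℕ) (b : B) :
    evp k c κ (monomial a b) = b * algebraMap ℂ B (∏ i : Fin k, om c ^ ((κ i : ℕ) * a i.succ)) := by
  rw [evp, eval_monomial, Finsupp.prod_fintype _ _ (by intro i; simp), Fin.prod_univ_succ]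
  simp only [pt_zero, pt_succ, map_one, one_pow, one_mul, map_prod, map_pow, pow_mul]

/-- `Λ` kills the Jacobian ideal in degree `ν`. -/
lemma Lam_kills_zero (t : B) {g : MvPolynomial (Fin (k + 1)) B} {m : ℕ}
    (hg : g.IsHomogeneous m) (hm : m < k * c) :
    Lam k c t (g * pderiv 0 (baseForm k c t)) = 0 := by
  have h1 : Lam k c t (g * pderiv 0 (baseForm k c t)) =
      (-algebraMap ℂ B (c + 1) * ∏ κ, lam k c t κ) *
        ∑ κ : Fin k → Fin (c + 1), evp k c κ g * algebraMap ℂ B (∏ i, om c ^ (κ i : ℕ)) := by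
    unfold Lam
    rw [Finset.mul_sum]
    refine Finset.sum_congr rfl fun κ _ => ?_
    rw [map_mul, evp_zero, ← Finset.mul_prod_erase Finset.univ _ (Finset.mem_univ κ)]
    ring
  rw [h1]
  have h2 : ∑ κ : Fin k → Fin (c + 1), evp k c κ g * algebraMap ℂ B (∏ i, om c ^ (κ i : ℕ)) = 0 := by
    conv_lhs => rw [g.as_sum]
    simp only [map_sum, Finset.sum_mul]
    rw [Finset.sum_comm]
    refine Finset.sum_eq_zero fun a ha => ?_
    have hdeg : a.degree = m := by
      by_contra hne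
      rw [mem_support_iff] at ha
      exact ha (hg.coeff_eq_zero hne)
    have h3 : ∀ κ : Fin k → Fin (c + 1), evp k c κ (monomial a (coeff a g)) *
        algebraMap ℂ B (∏ i, om c ^ (κ i : ℕ)) =
        coeff a g * algebraMap ℂ B (∏ i : Fin k, om c ^ ((κ i : ℕ) * (a i.succ + 1))) := by
      intro κ
      rw [evp_monomial, mul_assoc, ← map_mul, ← Finset.prod_mul_distrib]
      congr 3
      funext i
      rw [mul_add, mul_one, pow_add]
    rw [Finset.sum_congr rfl fun κ _ => h3 κ, ← Finset.mul_sum, ← map_sum, char_sum, map_zero,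
      mul_zero]
    by_contra hcon
    push Not at hcon
    have h4 : ∀ i : Fin k, c ≤ a i.succ := by
      intro i
      have := Nat.le_of_dvd (Nat.succ_pos _) (hcon i)
      omega
    have h5 : k * c ≤ a.degree := by
      rw [Finsupp.degree_eq_sum, Fin.sum_univ_succ]
      calc k * c = ∑ _i : Fin k, c := by simp
        _ ≤ ∑ i : Fin k, a i.succ := Finset.sum_le_sum fun i _ => h4 i
        _ ≤ _ := Nat.le_add_left _ _
    omega
  rw [h2, mul_zero]

lemma Lam_kills_succ (t : B) (g : MvPolynomial (Fin (k + 1)) B) (i : Fin k) :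
    Lam k c t (g * pderiv i.succ (baseForm k c t)) = 0 := by
  unfold Lam
  refine Finset.sum_eq_zero fun κ _ => ?_
  rw [map_mul, evp_succ, mul_zero, zero_mul, zero_mul]

lemma Lam_kills (hk : 1 ≤ k) (hc : 1 ≤ c) (t : B) {g : MvPolynomial (Fin (k + 1)) B}
    (hg : g.IsHomogeneous ((k + 1) * c)) (hmem : g ∈ jac (baseForm k c t)) :
    Lam k c t g = 0 := by
  have hle : c + 1 ≤ (k + 1) * c := by nlinarith
  obtain ⟨a, ha1, ha2⟩ := exists_homog_coeffs
    (F := fun j => pderiv j (baseForm k c t)) (e := c + 1)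
    (fun j => isHomogeneous_pderiv (baseForm_homog k c t) j) hle hg hmem
  rw [← ha2, Lam_sum, Fin.sum_univ_succ]
  rw [Lam_kills_zero k c t (ha1 0), zero_add]
  · exact Finset.sum_eq_zero fun i _ => Lam_kills_succ k c t _ i
  · have : (k + 1) * c = k * c + c := by ring
    omega

/-- The value at the Hessian. -/
lemma evp_hess (t : B) (κ : Fin k → Fin (c + 1)) :
    evp k c κ (hess (baseForm k c t)) * algebraMap ℂ B (∏ i, om c ^ (κ i : ℕ)) =
      -algebraMap ℂ B ((c + 1) ^ (k + 2)) * lam k c t κ := by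
  set f := baseForm k c t with hf
  set M : Matrix (Fin (k + 1)) (Fin (k + 1)) B := (evp k c κ).mapMatrix (hessM f) with hM
  have hdet : evp k c κ (hess f) = M.det := by rw [hess, RingHom.map_det]
  set P : Fin (k + 1) → B := fun i => algebraMap ℂ B (pt k c κ i) with hP
  have hMP : ∀ j, M.mulVec P j = evp k c κ (Fv f j) := by
    intro j
    simp only [Fv, Matrix.mulVec, dotProduct, map_sum, map_mul, hM, RingHom.mapMatrix_apply,
      Matrix.map_apply]
    refine Finset.sum_congr rfl fun i _ => ?_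
    congr 1
    simp [evp, hP]
  have hcast : ((c + 2 - 1 : ℕ) : B) = algebraMap ℂ B (c + 1) := by
    have : c + 2 - 1 = c + 1 := by omega
    rw [this, ← map_natCast (algebraMap ℂ B)]; push_cast; rfl
  have hMP0 : M.mulVec P 0 = -algebraMap ℂ B ((c + 1) ^ 2) * lam k c t κ := by
    rw [hMP, Fv_eq (baseForm_homog k c t), nsmul_eq_mul, map_mul, map_natCast, evp_zero, hcast,
      map_pow]
    ring
  have hMPs : ∀ i : Fin k, M.mulVec P i.succ = 0 := by
    intro i
    rw [hMP, Fv_eq (baseForm_homog k c t), nsmul_eq_mul, map_mul, evp_succ, mul_zero]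
  have h1 : M.adjugate.mulVec (M.mulVec P) = M.det • P := by
    rw [Matrix.mulVec_mulVec, Matrix.adjugate_mul, Matrix.smul_mulVec, Matrix.one_mulVec]
  have h2 := congrFun h1 0
  have h3 : M.adjugate.mulVec (M.mulVec P) 0 = M.adjugate 0 0 * M.mulVec P 0 := by
    change ∑ j, M.adjugate 0 j * M.mulVec P j = _
    rw [Fin.sum_univ_succ]
    simp [hMPs]
  rw [h3] at h2
  have hP0 : P 0 = 1 := by simp [hP]
  simp only [Pi.smul_apply, smul_eq_mul, hP0, mul_one] at h2
  have hadj : M.adjugate 0 0 = ∏ i : Fin k, (algebraMap ℂ B ((c + 1) * (om c ^ (κ i : ℕ)) ^ c)) := by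
    rw [Matrix.adjugate_fin_succ_eq_det_submatrix]
    have : M.submatrix (Fin.succAbove 0) (Fin.succAbove 0) =
        Matrix.diagonal fun i : Fin k => algebraMap ℂ B ((c + 1) * (om c ^ (κ i : ℕ)) ^ c) := by
      ext i j
      simp only [Matrix.submatrix_apply, Fin.zero_succAbove, hM, RingHom.mapMatrix_apply,
        Matrix.map_apply, hessM, Matrix.of_apply]
      rw [hf, pderiv_succ_succ_base]
      by_cases hij : i = j
      · subst hij
        rw [if_pos rfl, Matrix.diagonal_apply_eq]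
        simp [evp]
      · rw [if_neg hij, Matrix.diagonal_apply_ne _ hij, map_zero]
    rw [this, Matrix.det_diagonal]
    simp
  rw [hdet, ← h2, hadj, hMP0, ← map_prod]
  have h5 : (∏ i : Fin k, ((c + 1 : ℂ) * (om c ^ (κ i : ℕ)) ^ c)) * (∏ i, om c ^ (κ i : ℕ)) =
      (c + 1) ^ k := by
    rw [← Finset.prod_mul_distrib]
    have : ∀ i : Fin k, ((c + 1 : ℂ) * (om c ^ (κ i : ℕ)) ^ c) * om c ^ (κ i : ℕ) = c + 1 := by
      intro i
      rw [mul_assoc, ← pow_succ, ← pow_mul, mul_comm ((κ i : ℕ)), pow_mul,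
        (om_prim c).pow_eq_one, one_pow, mul_one]
    rw [Finset.prod_congr rfl fun i _ => this i]
    simp
  calc _ = -algebraMap ℂ B ((c + 1) ^ 2) * lam k c t κ * algebraMap ℂ B
        ((∏ i : Fin k, ((c + 1 : ℂ) * (om c ^ (κ i : ℕ)) ^ c)) * (∏ i, om c ^ (κ i : ℕ))) := by
        rw [map_mul]; ring
    _ = _ := by
        rw [h5, pow_add, map_mul]; ring

lemma Lam_hess (t : B) :
    Lam k c t (hess (baseForm k c t)) =
      -algebraMap ℂ B ((c + 1) ^ (2 * k + 2)) * ∏ κ, lam k c t κ := by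
  unfold Lam
  have h1 : ∀ κ : Fin k → Fin (c + 1), evp k c κ (hess (baseForm k c t)) *
      algebraMap ℂ B (∏ i, om c ^ (κ i : ℕ)) * ∏ κ' ∈ Finset.univ.erase κ, lam k c t κ' =
      -algebraMap ℂ B ((c + 1) ^ (k + 2)) * ∏ κ, lam k c t κ := by
    intro κ
    rw [evp_hess, mul_assoc, Finset.mul_prod_erase Finset.univ _ (Finset.mem_univ κ)]
  rw [Finset.sum_congr rfl fun κ _ => h1 κ, Finset.sum_const, Finset.card_univ, nsmul_eq_mul,
    Fintype.card_fun, Fintype.card_fin, Fintype.card_fin]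
  have h2 : (((c + 1) ^ k : ℕ) : B) = algebraMap ℂ B ((c + 1) ^ k) := by
    rw [← map_natCast (algebraMap ℂ B)]; push_cast; rfl
  rw [h2]
  have h3 : 2 * k + 2 = k + (k + 2) := by ring
  rw [h3, pow_add ((c : ℂ) + 1) k (k + 2), map_mul]
  ring

end Pool.Agent.W431.PInv
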