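import Pool.Agent.W431.PInv.Base

/-!
# The base family: non-degeneracy and the span condition at `t = 0`
-/

namespace Pool.Agent.W431.PInv

open MvPolynomial Matrix

variable (k c : ℕ)

lemma om_norm : ‖om c‖ = 1 := (om_prim c).norm'_eq_one (by omega)

lemma om_pow_re_le (j : ℕ) : (om c ^ j).re ≤ 1 := by
  calc (om c ^ j).re ≤ ‖om c ^ j‖ := Complex.re_le_norm _
    _ = 1 := by rw [norm_pow, om_norm, one_pow]

lemma eq_one_of_re {z : ℂ} (hz : ‖z‖ = 1) (hre : z.re = 1) : z = 1 := by
  have h1 : z.re * z.re + z.im * z.im = 1 := by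
    have := Complex.normSq_apply z
    rw [← this, Complex.normSq_eq_norm_sq, hz]; norm_num
  have h2 : z.im = 0 := by
    rw [hre] at h1
    have : z.im * z.im = 0 := by linarith
    exact mul_self_eq_zero.1 this
  exact Complex.ext (by simpa using hre) (by simpa using h2)

lemma alp_eq_zero_iff (κ : Fin k → Fin (c + 1)) : alp k c κ = 0 ↔ κ = fun _ => 0 := by
  constructor
  · intro h
    have h1 : ∑ i, ((om c ^ (κ i : ℕ)).re - 1) = 0 := by
      have := congrArg Complex.re h
      simpa [alp, Complex.re_sum] using this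
    have h2 : ∀ i, (om c ^ (κ i : ℕ)).re - 1 = 0 := by
      have h3 : ∀ i ∈ (Finset.univ : Finset (Fin k)), (om c ^ (κ i : ℕ)).re - 1 ≤ 0 :=
        fun i _ => by linarith [om_pow_re_le c (κ i : ℕ)]
      have := (Finset.sum_eq_zero_iff_of_nonpos h3).1 h1
      exact fun i => this i (Finset.mem_univ i)
    funext i
    have h4 : om c ^ (κ i : ℕ) = 1 := by
      apply eq_one_of_re
      · rw [norm_pow, om_norm, one_pow]
      · linarith [h2 i]
    have h5 := (om_prim c).dvd_of_pow_eq_one _ h4
    apply Fin.ext
    have h6 : (κ i : ℕ) < c + 1 := (κ i).2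
    exact Nat.eq_zero_of_dvd_of_lt h5 h6
  · rintro rfl
    simp [alp]

/-- The base form at parameters where no `λ` vanishes is non-singular. -/
lemma not_singular {s : ℂ} (hs : ∀ κ : Fin k → Fin (c + 1), lam k c s κ ≠ 0) :
    ¬ IsSingular (baseForm k c s) := by
  rintro ⟨z, hz, h⟩
  have hsucc : ∀ i : Fin k, z i.succ ^ (c + 1) = z 0 ^ (c + 1) := by
    intro i
    have := h i.succ
    rw [pderiv_succ_base] at this
    simpa [sub_eq_zero] using this
  by_cases h0 : z 0 = 0
  · apply hz
    funext j
    refine Fin.cases h0 (fun i => ?_) j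
    have := hsucc i
    rw [h0, zero_pow (by omega)] at this
    exact (pow_eq_zero_iff (by omega)).1 this
  · have hζ : ∀ i : Fin k, ∃ j : Fin (c + 1), z i.succ = om c ^ (j : ℕ) * z 0 := by
      intro i
      have h1 : (z i.succ / z 0) ^ (c + 1) = 1 := by
        rw [div_pow, hsucc i, div_self (pow_ne_zero _ h0)]
      obtain ⟨j, hj, hj2⟩ := (om_prim c).eq_pow_of_pow_eq_one h1
      exact ⟨⟨j, hj⟩, by rw [hj2]; field_simp⟩
    choose κ hκ using hζ
    apply hs κ
    have := h 0
    rw [pderiv_zero_base] at this
    simp only [map_mul, eval_C, map_pow, eval_X, map_sub, map_sum] at this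
    have hc1 : -(algebraMap ℂ ℂ) ((c : ℂ) + 1) ≠ 0 := by
      simp only [Algebra.algebraMap_self, RingHom.id_apply, ne_eq, neg_eq_zero]
      exact Nat.cast_add_one_ne_zero c
    have h2 : (∑ i : Fin k, (z i.succ - z 0)) - s * z 0 = 0 := by
      rcases mul_eq_zero.1 this with h3 | h3
      · rcases mul_eq_zero.1 h3 with h4 | h4
        · exact absurd h4 hc1
        · exact absurd h4 (pow_ne_zero _ h0)
      · exact h3
    have h3 : (∑ i : Fin k, (z i.succ - z 0)) - s * z 0 = lam k c s κ * z 0 := by
      simp only [lam, alp, Algebra.algebraMap_self, RingHom.id_apply]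
      rw [sub_mul, Finset.sum_mul]
      congr 1
      refine Finset.sum_congr rfl fun i _ => ?_
      rw [hκ i]; ring
    rw [h3] at h2
    rcases mul_eq_zero.1 h2 with h4 | h4
    · exact h4
    · exact absurd h4 h0

/-- The base form at `t = 0` is singular at `(1, …, 1)`. -/
lemma singular_zero : IsSingular (baseForm k c (0 : ℂ)) := by
  refine ⟨fun _ => 1, ?_, ?_⟩
  · intro h
    have := congrFun h 0
    simp at this
  · intro j
    refine Fin.cases ?_ (fun i => ?_) j
    · rw [pderiv_zero_base]; simp
    · rw [pderiv_succ_base]; simp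

/-! ### maximum principle -/

lemma degree_add_single {n : ℕ} (a : Fin n →₀ ℕ) (i : Fin n) (m : ℕ) :
    (a + Finsupp.single i m).degree = a.degree + m := by
  rw [map_add, Finsupp.degree_single]

/-- `(c, …, c)` -/
noncomputable def cst : Fin (k + 1) →₀ ℕ := Finsupp.equivFunOnFinite.symm (fun _ => c)

variable {k c}

lemma max_principle (φ : (Fin (k + 1) →₀ ℕ) → ℝ)
    (R1 : ∀ a : Fin (k + 1) →₀ ℕ, a.degree + (c + 1) = (k + 1) * c → ∀ i : Fin k,
      φ (a + Finsupp.single i.succ (c + 1)) = φ (a + Finsupp.single 0 (c + 1)))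
    (R2 : ∀ a : Fin (k + 1) →₀ ℕ, a.degree + (c + 1) = (k + 1) * c →
      ∑ i : Fin k, φ (a + Finsupp.single 0 c + Finsupp.single i.succ 1) =
        k * φ (a + Finsupp.single 0 (c + 1)))
    (m : ℝ) (hm : ∀ b : Fin (k + 1) →₀ ℕ, b.degree = (k + 1) * c → φ b ≤ m) :
    ∀ b : Fin (k + 1) →₀ ℕ, b.degree = (k + 1) * c → φ b = m → φ (cst k c) = m := by
  -- phase 2
  have phase2 : ∀ (N : ℕ) (b : Fin (k + 1) →₀ ℕ), b.degree = (k + 1) * c → φ b = m →
      (∀ i : Fin k, b i.succ ≤ c) → b 0 ≤ N → φ (cst k c) = m := by
    intro N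
    induction N with
    | zero =>
      intro b hb hbm hle h0
      have hb' : b.degree = ∑ j, b j := Finsupp.degree_eq_sum b
      rw [Fin.sum_univ_succ] at hb'
      have h1 : ∑ i : Fin k, b i.succ ≤ k * c := by
        calc ∑ i : Fin k, b i.succ ≤ ∑ _i : Fin k, c := Finset.sum_le_sum fun i _ => hle i
          _ = k * c := by simp
      have h2 : (k + 1) * c = k * c + c := by ring
      have hc0 : c = 0 := by omega
      have : b = cst k c := by
        ext j
        subst hc0
        refine Fin.cases ?_ (fun i => ?_) j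
        · simp [cst]; omega
        · have := hle i; simp [cst]; omega
      rw [← this, hbm]
    | succ N ih =>
      intro b hb hbm hle h0
      have hb' : b.degree = ∑ j, b j := Finsupp.degree_eq_sum b
      rw [Fin.sum_univ_succ] at hb'
      have h1 : ∑ i : Fin k, b i.succ ≤ k * c := by
        calc ∑ i : Fin k, b i.succ ≤ ∑ _i : Fin k, c := Finset.sum_le_sum fun i _ => hle i
          _ = k * c := by simp
      have h2 : (k + 1) * c = k * c + c := by ring
      by_cases h3 : b 0 ≤ c
      · -- b = cst
        have h4 : ∑ i : Fin k, b i.succ = ∑ _i : Fin k, c := by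
          have : ∑ _i : Fin k, c = k * c := by simp
          omega
        have h5 := (Finset.sum_eq_sum_iff_of_le (fun i _ => hle i)).1 h4
        have : b = cst k c := by
          ext j
          refine Fin.cases ?_ (fun i => ?_) j
          · have e : ∑ _i : Fin k, c = k * c := by simp
            simp only [cst, Finsupp.equivFunOnFinite_symm_apply_apply]
            omega
          · simpa [cst] using h5 i (Finset.mem_univ i)
        rw [← this, hbm]
      · push Not at h3
        -- exists i with b i.succ < c
        have h4 : ∃ i : Fin k, b i.succ < c := by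
          by_contra hcon
          push Not at hcon
          have h5 : k * c ≤ ∑ i : Fin k, b i.succ := by
            calc k * c = ∑ _i : Fin k, c := by simp
              _ ≤ _ := Finset.sum_le_sum fun i _ => hcon i
          omega
        obtain ⟨i₀, hi₀⟩ := h4
        set a : Fin (k + 1) →₀ ℕ := b - Finsupp.single 0 (c + 1) with ha
        have hab : a + Finsupp.single 0 (c + 1) = b := by
          rw [ha]
          apply tsub_add_cancel_of_le
          rw [Finsupp.single_le_iff]
          exact h3
        have had : a.degree + (c + 1) = (k + 1) * c := by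
          rw [← degree_add_single a 0 (c + 1), hab, hb]
        have hr2 := R2 a had
        rw [hab, hbm] at hr2
        have h6 : ∀ i ∈ (Finset.univ : Finset (Fin k)),
            φ (a + Finsupp.single 0 c + Finsupp.single i.succ 1) ≤ m := by
          intro i _
          apply hm
          rw [degree_add_single, degree_add_single]
          omega
        have h7 : ∑ i : Fin k, φ (a + Finsupp.single 0 c + Finsupp.single i.succ 1) =
            ∑ _i : Fin k, m := by rw [hr2]; simp
        have h8 := (Finset.sum_eq_sum_iff_of_le h6).1 h7 i₀ (Finset.mem_univ _)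
        refine ih _ ?_ h8 ?_ ?_
        · rw [degree_add_single, degree_add_single]
          omega
        · intro i
          have e1 : (a + Finsupp.single 0 c + Finsupp.single i₀.succ 1 : Fin (k + 1) →₀ ℕ) i.succ =
              b i.succ + (if i₀ = i then 1 else 0) := by
            rw [← hab]
            simp only [Finsupp.add_apply, Finsupp.single_apply, Fin.succ_inj,
              (Fin.succ_ne_zero i).symm, if_false, add_zero]
          rw [e1]
          by_cases h9 : i₀ = i
          · subst h9; rw [if_pos rfl]; omega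
          · rw [if_neg h9]; have := hle i; omega
        · have e1 : (a + Finsupp.single 0 c + Finsupp.single i₀.succ 1 : Fin (k + 1) →₀ ℕ) 0 + 1 =
              b 0 := by
            rw [← hab]
            simp only [Finsupp.add_apply, Finsupp.single_apply, Fin.succ_ne_zero, if_false,
              if_true, add_zero]
            omega
          omega
  -- phase 1
  have phase1 : ∀ (N : ℕ) (b : Fin (k + 1) →₀ ℕ), b.degree = (k + 1) * c → φ b = m →
      (∑ i : Fin k, b i.succ) ≤ N → φ (cst k c) = m := by
    intro N
    induction N with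
    | zero =>
      intro b hb hbm h0
      refine phase2 (b 0) b hb hbm (fun i => ?_) le_rfl
      have : b i.succ ≤ ∑ i : Fin k, b i.succ :=
        Finset.single_le_sum (f := fun i : Fin k => b i.succ) (fun _ _ => Nat.zero_le _)
          (Finset.mem_univ i)
      omega
    | succ N ih =>
      intro b hb hbm h0
      by_cases h1 : ∀ i : Fin k, b i.succ ≤ c
      · exact phase2 (b 0) b hb hbm h1 le_rfl
      · push Not at h1
        obtain ⟨i₀, hi₀⟩ := h1
        set a : Fin (k + 1) →₀ ℕ := b - Finsupp.single i₀.succ (c + 1) with ha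
        have hab : a + Finsupp.single i₀.succ (c + 1) = b := by
          rw [ha]
          apply tsub_add_cancel_of_le
          rw [Finsupp.single_le_iff]
          exact hi₀
        have had : a.degree + (c + 1) = (k + 1) * c := by
          rw [← degree_add_single a i₀.succ (c + 1), hab, hb]
        have hr1 := R1 a had i₀
        rw [hab, hbm] at hr1
        refine ih (a + Finsupp.single 0 (c + 1)) ?_ hr1.symm ?_
        · rw [degree_add_single]; exact had
        · have e1 : ∀ i : Fin k, (a + Finsupp.single 0 (c + 1) : Fin (k + 1) →₀ ℕ) i.succ =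
              a i.succ := by
            intro i
            simp only [Finsupp.add_apply, Finsupp.single_apply, (Fin.succ_ne_zero i).symm,
              if_false, add_zero]
          rw [Finset.sum_congr rfl fun i _ => e1 i]
          have e2 : ∑ i : Fin k, b i.succ = ∑ i : Fin k, a i.succ + (c + 1) := by
            rw [← hab]
            simp only [Finsupp.add_apply, Finset.sum_add_distrib, Finsupp.single_apply,
              Fin.succ_inj]
            simp
          omega
  intro b hb hbm
  exact phase1 _ b hb hbm le_rfl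

lemma max_principle' (φ : (Fin (k + 1) →₀ ℕ) → ℝ)
    (R1 : ∀ a : Fin (k + 1) →₀ ℕ, a.degree + (c + 1) = (k + 1) * c → ∀ i : Fin k,
      φ (a + Finsupp.single i.succ (c + 1)) = φ (a + Finsupp.single 0 (c + 1)))
    (R2 : ∀ a : Fin (k + 1) →₀ ℕ, a.degree + (c + 1) = (k + 1) * c →
      ∑ i : Fin k, φ (a + Finsupp.single 0 c + Finsupp.single i.succ 1) =
        k * φ (a + Finsupp.single 0 (c + 1)))
    (b : Fin (k + 1) →₀ ℕ) (hb : b.degree = (k + 1) * c) : φ b ≤ φ (cst k c) := by
  have : Nonempty (Expo (k + 1) ((k + 1) * c)) := ⟨⟨b, hb⟩⟩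
  obtain ⟨b₀, hb₀⟩ := Finite.exists_max (fun m : Expo (k + 1) ((k + 1) * c) => φ m.1)
  have := max_principle φ R1 R2 (φ b₀.1) (fun b hb => hb₀ ⟨b, hb⟩) b₀.1 b₀.2 rfl
  rw [this]
  exact hb₀ ⟨b, hb⟩

/-- Functions satisfying the relations are constant. -/
lemma constant_of_relations (ψ : (Fin (k + 1) →₀ ℕ) → ℂ)
    (R1 : ∀ a : Fin (k + 1) →₀ ℕ, a.degree + (c + 1) = (k + 1) * c → ∀ i : Fin k,
      ψ (a + Finsupp.single i.succ (c + 1)) = ψ (a + Finsupp.single 0 (c + 1)))
    (R2 : ∀ a : Fin (k + 1) →₀ ℕ, a.degree + (c + 1) = (k + 1) * c →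
      ∑ i : Fin k, ψ (a + Finsupp.single 0 c + Finsupp.single i.succ 1) =
        k * ψ (a + Finsupp.single 0 (c + 1)))
    (b : Fin (k + 1) →₀ ℕ) (hb : b.degree = (k + 1) * c) : ψ b = ψ (cst k c) := by
  have hre : (ψ b).re = (ψ (cst k c)).re := by
    apply le_antisymm
    · refine max_principle' (fun b => (ψ b).re) (fun a ha i => ?_) (fun a ha => ?_) b hb
      · rw [R1 a ha i]
      · have := congrArg Complex.re (R2 a ha)
        simpa [Complex.re_sum] using this
    · have := max_principle' (fun b => -(ψ b).re) (fun a ha i => ?_) (fun a ha => ?_) b hb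
      · simpa using this
      · rw [R1 a ha i]
      · have := congrArg Complex.re (R2 a ha)
        simp only [Complex.re_sum] at this
        simp only [Finset.sum_neg_distrib, this]
        simp
  have him : (ψ b).im = (ψ (cst k c)).im := by
    apply le_antisymm
    · refine max_principle' (fun b => (ψ b).im) (fun a ha i => ?_) (fun a ha => ?_) b hb
      · rw [R1 a ha i]
      · have := congrArg Complex.im (R2 a ha)
        simpa [Complex.im_sum] using this
    · have := max_principle' (fun b => -(ψ b).im) (fun a ha i => ?_) (fun a ha => ?_) b hb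
      · simpa using this
      · rw [R1 a ha i]
      · have := congrArg Complex.im (R2 a ha)
        simp only [Complex.im_sum] at this
        simp only [Finset.sum_neg_distrib, this]
        simp
  exact Complex.ext hre him

/-- **The span condition at the base form.** -/
lemma span_base (b₀ m : Fin (k + 1) →₀ ℕ) (hb₀ : b₀.degree = (k + 1) * c)
    (hm : m.degree = (k + 1) * c) :
    ∃ x : ℂ, (monomial m 1 : MvPolynomial (Fin (k + 1)) ℂ) - C x * monomial b₀ 1 ∈
      jac (baseForm k c (0 : ℂ)) := by
  set J := jac (baseForm k c (0 : ℂ)) with hJ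
  set S : Submodule ℂ (MvPolynomial (Fin (k + 1)) ℂ) :=
    J.restrictScalars ℂ ⊔ Submodule.span ℂ {(monomial b₀ 1 : MvPolynomial (Fin (k + 1)) ℂ)} with hS
  have key : S.mkQ (monomial m 1) = 0 := by
    rw [← Module.forall_dual_apply_eq_zero_iff ℂ]
    intro φ
    set ψ : (Fin (k + 1) →₀ ℕ) → ℂ := fun a => φ (S.mkQ (monomial a 1)) with hψ
    have hker : ∀ g ∈ J, φ (S.mkQ g) = 0 := by
      intro g hg
      have : S.mkQ g = 0 := by
        rw [Submodule.mkQ_apply, Submodule.Quotient.mk_eq_zero]
        exact Submodule.mem_sup_left hg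
      rw [this, map_zero]
    have hb : ψ b₀ = 0 := by
      have : S.mkQ (monomial b₀ 1) = 0 := by
        rw [Submodule.mkQ_apply, Submodule.Quotient.mk_eq_zero]
        exact Submodule.mem_sup_right (Submodule.mem_span_singleton_self _)
      rw [hψ]; simp only; rw [this, map_zero]
    have hR1 : ∀ a : Fin (k + 1) →₀ ℕ, a.degree + (c + 1) = (k + 1) * c → ∀ i : Fin k,
        ψ (a + Finsupp.single i.succ (c + 1)) = ψ (a + Finsupp.single 0 (c + 1)) := by
      intro a _ i
      have h1 : (monomial a 1 * pderiv i.succ (baseForm k c (0 : ℂ)) :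
          MvPolynomial (Fin (k + 1)) ℂ) ∈ J :=
        Ideal.mul_mem_left _ _ (Ideal.subset_span ⟨i.succ, rfl⟩)
      have h2 := hker _ h1
      rw [pderiv_succ_base, mul_sub, X_pow_eq_monomial, X_pow_eq_monomial, monomial_mul,
        monomial_mul, mul_one, map_sub, map_sub, sub_eq_zero] at h2
      exact h2
    have hR2 : ∀ a : Fin (k + 1) →₀ ℕ, a.degree + (c + 1) = (k + 1) * c →
        ∑ i : Fin k, ψ (a + Finsupp.single 0 c + Finsupp.single i.succ 1) =
          k * ψ (a + Finsupp.single 0 (c + 1)) := by
      intro a _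
      have h1 : (C (-((c : ℂ) + 1)⁻¹) * monomial a 1 * pderiv 0 (baseForm k c (0 : ℂ)) :
          MvPolynomial (Fin (k + 1)) ℂ) ∈ J :=
        Ideal.mul_mem_left _ _ (Ideal.subset_span ⟨0, rfl⟩)
      have h2 := hker _ h1
      have h3 : (C (-((c : ℂ) + 1)⁻¹) * monomial a 1 * pderiv 0 (baseForm k c (0 : ℂ)) :
          MvPolynomial (Fin (k + 1)) ℂ) =
          (∑ i : Fin k, monomial (a + Finsupp.single 0 c + Finsupp.single i.succ 1) 1) -
            (k : ℂ) • monomial (a + Finsupp.single 0 (c + 1)) 1 := by
        rw [pderiv_zero_base]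
        have e1 : (C (-((c : ℂ) + 1)⁻¹) * C (-(algebraMap ℂ ℂ) ((c : ℂ) + 1)) :
            MvPolynomial (Fin (k + 1)) ℂ) = 1 := by
          rw [← C_mul]
          have : -((c : ℂ) + 1)⁻¹ * -(algebraMap ℂ ℂ) ((c : ℂ) + 1) = 1 := by
            have h : ((c : ℂ) + 1) ≠ 0 := Nat.cast_add_one_ne_zero c
            simp only [Algebra.algebraMap_self, RingHom.id_apply]
            field_simp
          rw [this, C_1]
        have e2 : ∀ i : Fin k, (monomial (a + Finsupp.single 0 c + Finsupp.single i.succ 1) 1 :
            MvPolynomial (Fin (k + 1)) ℂ) = monomial a 1 * X 0 ^ c * X i.succ := by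
          intro i
          rw [X_pow_eq_monomial, monomial_mul, X, monomial_mul, mul_one, mul_one]
        have e3 : (monomial (a + Finsupp.single 0 (c + 1)) 1 :
            MvPolynomial (Fin (k + 1)) ℂ) = monomial a 1 * X 0 ^ c * X 0 := by
          rw [X_pow_eq_monomial, monomial_mul, X, monomial_mul, mul_one, mul_one, add_assoc,
            ← Finsupp.single_add]
        rw [Finset.sum_congr rfl fun i _ => e2 i, e3, C_0, zero_mul, sub_zero,
          Finset.sum_sub_distrib, Finset.sum_const, Finset.card_univ, Fintype.card_fin,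
          nsmul_eq_mul, smul_eq_C_mul, ← Finset.mul_sum, map_natCast]
        calc _ = (C (-((c : ℂ) + 1)⁻¹) * C (-(algebraMap ℂ ℂ) ((c : ℂ) + 1))) *
              (monomial a 1 * X 0 ^ c * (∑ i : Fin k, X i.succ - (k : MvPolynomial (Fin (k + 1)) ℂ) *
                X 0)) := by ring
          _ = _ := by rw [e1]; ring
      rw [h3, map_sub, map_sub, map_sum, map_sum, map_smul, map_smul, sub_eq_zero,
        smul_eq_mul] at h2
      exact h2
    change ψ m = 0
    rw [constant_of_relations ψ hR1 hR2 m hm, ← constant_of_relations ψ hR1 hR2 b₀ hb₀, hb]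
  rw [Submodule.mkQ_apply, Submodule.Quotient.mk_eq_zero, hS, Submodule.mem_sup] at key
  obtain ⟨y, hy, z, hz, hyz⟩ := key
  rw [Submodule.mem_span_singleton] at hz
  obtain ⟨x, rfl⟩ := hz
  refine ⟨x, ?_⟩
  rw [← hyz, ← smul_eq_C_mul, add_sub_cancel_right]
  exact hy

end Pool.Agent.W431.PInv
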