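import Mathlib

/-!
# Associated forms: definitions

`n` variables `z_0, …, z_{n-1}` (indexed by `Fin n`), forms of degree `d` over `ℂ`.
-/

namespace Pool.Agent.W431.PInv

open MvPolynomial

/-- Exponent vectors of degree `d` in `n` variables. They index the coefficients of a form of
degree `d`, i.e. the coordinates on the space `V` of forms of degree `d`. -/
abbrev Expo (n d : ℕ) : Type := {m : Fin n →₀ ℕ // m.degree = d}

/-- The value `P(f)` at the form `f` of a polynomial function `P` on the space of forms of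
degree `d`: a polynomial in the coefficients of `f`. -/
noncomputable def evalAt {n d : ℕ} (P : MvPolynomial (Expo n d) ℂ)
    (f : MvPolynomial (Fin n) ℂ) : ℂ :=
  MvPolynomial.eval (fun m : Expo n d => MvPolynomial.coeff m.1 f) P

/-- The partial derivatives of `f` have a common zero besides the origin. -/
def IsSingular {n : ℕ} (f : MvPolynomial (Fin n) ℂ) : Prop :=
  ∃ z : Fin n → ℂ, z ≠ 0 ∧ ∀ j, MvPolynomial.eval z (pderiv j f) = 0

/-- `Δ` is the discriminant of forms of degree `d` in `n` variables (which is defined up to a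
nonzero scalar factor): an irreducible polynomial in the coefficients which vanishes exactly at
the singular forms. -/
def IsDiscriminant {n d : ℕ} (Δ : MvPolynomial (Expo n d) ℂ) : Prop :=
  Irreducible Δ ∧
    ∀ f : MvPolynomial (Fin n) ℂ, f.IsHomogeneous d → (evalAt Δ f = 0 ↔ IsSingular f)

/-- The Hessian matrix `(∂_i ∂_j f)`. -/
noncomputable def hessM {B : Type*} [CommRing B] {n : ℕ} (f : MvPolynomial (Fin n) B) :
    Matrix (Fin n) (Fin n) (MvPolynomial (Fin n) B) :=
  Matrix.of fun i j => pderiv i (pderiv j f)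

/-- The Hessian determinant `H_f = det (∂_i ∂_j f)`. -/
noncomputable def hess {B : Type*} [CommRing B] {n : ℕ} (f : MvPolynomial (Fin n) B) :
    MvPolynomial (Fin n) B :=
  (hessM f).det

/-- The Jacobian ideal `(∂_1 f, …, ∂_n f)`. -/
noncomputable def jac {B : Type*} [CommRing B] {n : ℕ} (f : MvPolynomial (Fin n) B) :
    Ideal (MvPolynomial (Fin n) B) :=
  Ideal.span (Set.range fun j => pderiv j f)

/-- `c = μ_i(f)`: in the algebra `M_f = ℂ[z]/(∂_1 f, …, ∂_n f)` one has `z^i = c · H_f`. -/
def IsMu {n : ℕ} (f : MvPolynomial (Fin n) ℂ) (i : Fin n →₀ ℕ) (c : ℂ) : Prop :=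
  Ideal.Quotient.mk (jac f) (monomial i 1) = Ideal.Quotient.mk (jac f) (C c * hess f)

open Classical in
/-- The number `μ_i(f)` (the junk value `0` is used when it does not exist). -/
noncomputable def mu {n : ℕ} (f : MvPolynomial (Fin n) ℂ) (i : Fin n →₀ ℕ) : ℂ :=
  if h : ∃ c, IsMu f i c then h.choose else 0

/-- `Δ^p μ_i` is a polynomial function: there is a polynomial `P` on the space of forms of
degree `d` with `Δ(f)^p μ_i(f) = P(f)` for all nondegenerate `f`. -/
def IsPolyMul {n d : ℕ} (Δ : MvPolynomial (Expo n d) ℂ) (i : Fin n →₀ ℕ) (p : ℤ) : Prop :=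
  ∃ P : MvPolynomial (Expo n d) ℂ, ∀ f : MvPolynomial (Fin n) ℂ, f.IsHomogeneous d →
    evalAt Δ f ≠ 0 → evalAt Δ f ^ p * mu f i = evalAt P f

/-- `p_i`: the smallest integer `p` such that `Δ^p μ_i` is a polynomial function. -/
noncomputable def pExp {n d : ℕ} (Δ : MvPolynomial (Expo n d) ℂ) (i : Fin n →₀ ℕ) : ℤ :=
  sInf {p : ℤ | IsPolyMul Δ i p}

/-- `p(n,d)`: the maximum of the `p_i` over all exponent vectors `i` with `|i| = n (d - 2)`. -/
noncomputable def pInv {n d : ℕ} (Δ : MvPolynomial (Expo n d) ℂ) : ℤ :=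
  ⨆ i : Expo n (n * (d - 2)), pExp Δ i.1

end Pool.Agent.W431.PInv
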