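import Mathlib

/-!
# A determinantal coefficient lemma

Comparison of the coefficient of `∏ X_k^(N-1)` in `b * det M` for matrices `M` with
`M v = (δ X_k^N)_k`, where `v_j = X_j - x_j`.
-/

namespace Pool.Agent.W431.PInv

open MvPolynomial Matrix

variable {T : Type*} [CommRing T] {σ : Type*} [Fintype σ] [DecidableEq σ]

/-- The exponent vector `(N-1, …, N-1)`. -/
noncomputable def topExp (σ : Type*) [Fintype σ] (N : ℕ) : σ →₀ ℕ :=
  Finsupp.equivFunOnFinite.symm (fun _ => N - 1)

omit [DecidableEq σ] in
@[simp] lemma topExp_apply (N : ℕ) (k : σ) : topExp σ N k = N - 1 := rfl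

omit [Fintype σ] [DecidableEq σ] in
lemma coeff_mul_CXpow_eq_zero (P : MvPolynomial σ T) (δ : T) (k : σ) (N : ℕ) (γ : σ →₀ ℕ)
    (h : γ k < N) : coeff γ (P * (C δ * X k ^ N)) = 0 := by
  classical
  have : (C δ * X k ^ N : MvPolynomial σ T) = monomial (Finsupp.single k N) δ := by
    rw [← C_mul_X_pow_eq_monomial]
  rw [this, coeff_mul_monomial', if_neg]
  intro hle
  have := hle k
  simp at this
  omega

lemma coeff_det_eq_zero {N : ℕ} (hN : 1 ≤ N) (x : σ → T) (δ : T)
    (E : Matrix σ σ (MvPolynomial σ T)) (i : σ)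
    (hi : E.mulVec (fun j => X j - C (x j)) i = 0)
    (hk : ∀ k, k ≠ i → E.mulVec (fun j => X j - C (x j)) k = C δ * X k ^ N)
    (b : MvPolynomial σ T) :
    coeff (topExp σ N) (b * E.det) = 0 := by
  set v : σ → MvPolynomial σ T := fun j => X j - C (x j) with hv
  set D := b * E.det with hD
  -- key relation
  have key : (X i - C (x i)) * D = ∑ k, (b * E.adjugate i k) * (E.mulVec v k) := by
    have h1 : E.adjugate.mulVec (E.mulVec v) = E.det • v := by
      rw [Matrix.mulVec_mulVec, Matrix.adjugate_mul, Matrix.smul_mulVec, Matrix.one_mulVec]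
    have h2 := congrFun h1 i
    simp only [Matrix.mulVec, dotProduct, Pi.smul_apply, smul_eq_mul] at h2
    have h3 : E.det * v i = E.det * (X i - C (x i)) := rfl
    calc (X i - C (x i)) * D = b * (E.det * v i) := by rw [h3, hD]; ring
      _ = ∑ k, (b * E.adjugate i k) * (E.mulVec v k) := by
          rw [← h2, Finset.mul_sum]
          refine Finset.sum_congr rfl fun k _ => ?_
          simp only [Matrix.mulVec, dotProduct]
          ring
  have hzero : ∀ γ : σ →₀ ℕ, (∀ k, k ≠ i → γ k = N - 1) →
      coeff γ ((X i - C (x i)) * D) = 0 := by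
    intro γ hγ
    rw [key, coeff_sum]
    refine Finset.sum_eq_zero fun k _ => ?_
    by_cases hki : k = i
    · subst hki
      rw [hi, mul_zero, coeff_zero]
    · rw [hk k hki]
      apply coeff_mul_CXpow_eq_zero
      rw [hγ k hki]; omega
  have hstep : ∀ γ : σ →₀ ℕ, (∀ k, k ≠ i → γ k = N - 1) →
      coeff γ D = x i * coeff (γ + Finsupp.single i 1) D := by
    intro γ hγ
    have h := hzero (γ + Finsupp.single i 1) (by
      intro k hk'
      rw [Finsupp.add_apply, Finsupp.single_apply, if_neg (Ne.symm hk'), add_zero, hγ k hk'])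
    rw [sub_mul, coeff_sub, mul_comm (X i) D, coeff_mul_X, coeff_C_mul, sub_eq_zero] at h
    exact h
  have hiter : ∀ m : ℕ, ∀ γ : σ →₀ ℕ, (∀ k, k ≠ i → γ k = N - 1) →
      coeff γ D = x i ^ m * coeff (γ + Finsupp.single i m) D := by
    intro m
    induction m with
    | zero => intro γ _; simp
    | succ m ih =>
      intro γ hγ
      rw [ih γ hγ, hstep (γ + Finsupp.single i m) (by
        intro k hk'
        rw [Finsupp.add_apply, Finsupp.single_apply, if_neg (Ne.symm hk'), add_zero, hγ k hk']),
        add_assoc, ← Finsupp.single_add, pow_succ, mul_assoc]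
  rw [hiter (D.totalDegree + 1) (topExp σ N) (by intro k _; rfl)]
  rw [coeff_eq_zero_of_totalDegree_lt, mul_zero]
  refine lt_of_lt_of_le (Nat.lt_succ_self _) ?_
  calc D.totalDegree + 1 = (Finsupp.single i (D.totalDegree + 1)) i := by simp
    _ ≤ (topExp σ N + Finsupp.single i (D.totalDegree + 1)) i := by simp
    _ ≤ ∑ j ∈ (topExp σ N + Finsupp.single i (D.totalDegree + 1)).support,
          (topExp σ N + Finsupp.single i (D.totalDegree + 1)) j := by
        apply Finset.single_le_sum (f := fun j =>
          (topExp σ N + Finsupp.single i (D.totalDegree + 1)) j) (fun _ _ => Nat.zero_le _)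
        simp

/-- **Lemma U.** -/
lemma coeff_det_eq {N : ℕ} (hN : 1 ≤ N) (x : σ → T) (δ : T)
    (M₁ M₂ : Matrix σ σ (MvPolynomial σ T))
    (h₁ : ∀ k, M₁.mulVec (fun j => X j - C (x j)) k = C δ * X k ^ N)
    (h₂ : ∀ k, M₂.mulVec (fun j => X j - C (x j)) k = C δ * X k ^ N)
    (b : MvPolynomial σ T) :
    coeff (topExp σ N) (b * M₁.det) = coeff (topExp σ N) (b * M₂.det) := by
  set v : σ → MvPolynomial σ T := fun j => X j - C (x j) with hv
  let Mx : Finset σ → Matrix σ σ (MvPolynomial σ T) :=
    fun s i => if i ∈ s then M₂ i else M₁ i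
  have hMx : ∀ s k, (Mx s).mulVec v k = C δ * X k ^ N := by
    intro s k
    by_cases hk : k ∈ s
    · have : (Mx s).mulVec v k = M₂.mulVec v k := by
        simp only [Matrix.mulVec]; congr 1; simp only [Mx, if_pos hk]
      rw [this, h₂]
    · have : (Mx s).mulVec v k = M₁.mulVec v k := by
        simp only [Matrix.mulVec]; congr 1; simp only [Mx, if_neg hk]
      rw [this, h₁]
  have main : ∀ s : Finset σ, coeff (topExp σ N) (b * (Mx s).det) =
      coeff (topExp σ N) (b * M₁.det) := by
    intro s
    induction s using Finset.induction_on with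
    | empty =>
      have : Mx ∅ = M₁ := by ext i j; simp [Mx]
      rw [this]
    | insert i s his ih =>
      have e1 : Mx (insert i s) = (Mx s).updateRow i (M₂ i) := by
        funext k l
        by_cases hki : k = i
        · subst hki; rw [Matrix.updateRow_self]; simp [Mx]
        · rw [Matrix.updateRow_ne hki]; simp [Mx, hki]
      have e2 : Mx s = (Mx s).updateRow i (M₁ i) := by
        funext k l
        by_cases hki : k = i
        · subst hki; rw [Matrix.updateRow_self]; simp [Mx, his]
        · rw [Matrix.updateRow_ne hki]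
      have e3 : (Mx (insert i s)).det = (Mx s).det +
          ((Mx s).updateRow i (M₂ i - M₁ i)).det := by
        rw [e1]
        conv_rhs => enter [1]; rw [e2]
        rw [← Matrix.det_updateRow_add]
        congr 2; abel
      rw [e3, mul_add, coeff_add, ih, add_eq_left]
      apply coeff_det_eq_zero hN x δ _ i
      · have : ((Mx s).updateRow i (M₂ i - M₁ i)).mulVec v i =
            M₂.mulVec v i - M₁.mulVec v i := by
          simp only [Matrix.mulVec, Matrix.updateRow_self]
          rw [sub_dotProduct]
        rw [this, h₁, h₂, sub_self]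
      · intro k hki
        have : ((Mx s).updateRow i (M₂ i - M₁ i)).mulVec v k = (Mx s).mulVec v k := by
          simp only [Matrix.mulVec]; rw [Matrix.updateRow_ne hki]
        rw [this, hMx]
  have e : Mx Finset.univ = M₂ := by ext i j; simp [Mx]
  rw [← main Finset.univ, e]

end Pool.Agent.W431.PInv
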