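import Pool.Agent.W431.PInv.DetLemma

/-!
# Duality in the socle degree for `n` forms in `n` variables

`PiF C N h` is the coefficient of `∏ X_k^(N-1)` in `h * det C`, where `C F = (δ X_k^N)_k`.
-/

namespace Pool.Agent.W431.PInv

open MvPolynomial Matrix

section

variable {R : Type*} [CommRing R] {σ : Type*} [Fintype σ] [DecidableEq σ]

/-- The functional `h ↦ coeff_{(N-1,…,N-1)} (h * det C)`. -/
noncomputable def PiF (Cm : Matrix σ σ (MvPolynomial σ R)) (N : ℕ) (h : MvPolynomial σ R) : R :=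
  coeff (topExp σ N) (h * Cm.det)

lemma PiF_add (Cm : Matrix σ σ (MvPolynomial σ R)) (N : ℕ) (g h : MvPolynomial σ R) :
    PiF Cm N (g + h) = PiF Cm N g + PiF Cm N h := by
  simp [PiF, add_mul]

lemma PiF_sub (Cm : Matrix σ σ (MvPolynomial σ R)) (N : ℕ) (g h : MvPolynomial σ R) :
    PiF Cm N (g - h) = PiF Cm N g - PiF Cm N h := by
  simp [PiF, sub_mul]

lemma PiF_C_mul (Cm : Matrix σ σ (MvPolynomial σ R)) (N : ℕ) (c : R) (h : MvPolynomial σ R) :
    PiF Cm N (C c * h) = c * PiF Cm N h := by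
  simp [PiF, mul_assoc, coeff_C_mul]

omit [DecidableEq σ] in
lemma coeff_top_mul_of_sum {N : ℕ} (hN : 1 ≤ N) (δ : R) (P : σ → MvPolynomial σ R) :
    coeff (topExp σ N) (∑ k, P k * (C δ * X k ^ N)) = 0 := by
  rw [coeff_sum]
  refine Finset.sum_eq_zero fun k _ => ?_
  apply coeff_mul_CXpow_eq_zero
  simp only [topExp_apply]; omega

/-- Cramer's rule in the form used below. -/
lemma det_mul_eq_sum (M : Matrix σ σ (MvPolynomial σ R)) (v w : σ → MvPolynomial σ R)
    (h : ∀ k, M.mulVec v k = w k) (g : MvPolynomial σ R) (j : σ) :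
    g * v j * M.det = ∑ k, (g * M.adjugate j k) * w k := by
  have h1 : M.adjugate.mulVec (M.mulVec v) = M.det • v := by
    rw [Matrix.mulVec_mulVec, Matrix.adjugate_mul, Matrix.smul_mulVec, Matrix.one_mulVec]
  have h2 := congrFun h1 j
  have h3 : M.adjugate.mulVec (M.mulVec v) j = ∑ k, M.adjugate j k * w k := by
    simp only [Matrix.mulVec, dotProduct]
    refine Finset.sum_congr rfl fun k _ => ?_
    rw [← h k]; rfl
  rw [h3] at h2
  simp only [Pi.smul_apply, smul_eq_mul] at h2
  calc g * v j * M.det = g * (M.det * v j) := by ring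
    _ = g * ∑ k, M.adjugate j k * w k := by rw [h2]
    _ = _ := by rw [Finset.mul_sum]; exact Finset.sum_congr rfl fun k _ => by ring

lemma PiF_eq_zero_of_mem {N : ℕ} (hN : 1 ≤ N) {δ : R} {Cm : Matrix σ σ (MvPolynomial σ R)}
    {F : σ → MvPolynomial σ R} (hC : ∀ k, Cm.mulVec F k = C δ * X k ^ N)
    {g : MvPolynomial σ R} (hg : g ∈ Ideal.span (Set.range F)) : PiF Cm N g = 0 := by
  rw [Ideal.mem_span_range_iff_exists_fun] at hg
  obtain ⟨c, rfl⟩ := hg
  have : PiF Cm N (∑ i, c i * F i) = ∑ i, PiF Cm N (c i * F i) := by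
    simp only [PiF, Finset.sum_mul, coeff_sum]
  rw [this]
  refine Finset.sum_eq_zero fun i _ => ?_
  unfold PiF
  rw [det_mul_eq_sum Cm F _ hC]
  exact coeff_top_mul_of_sum hN δ _

omit [DecidableEq σ] in
lemma prod_C_mul_X_pow_top (N : ℕ) (δ : R) :
    ∏ k : σ, (C δ * X k ^ (N - 1) : MvPolynomial σ R) =
      monomial (topExp σ N) (δ ^ Fintype.card σ) := by
  rw [Finset.prod_mul_distrib, Finset.prod_const, Finset.card_univ, ← C_pow]
  rw [← mul_one (δ ^ Fintype.card σ), ← C_mul_monomial, mul_one]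
  congr 1
  rw [monomial_eq, C_1, one_mul, Finsupp.prod_fintype]
  · rfl
  · intro i; simp

/-- `Π(det H) = δ^n` when `H X = F`. -/
lemma PiF_det {N : ℕ} (hN : 1 ≤ N) {δ : R} {Cm : Matrix σ σ (MvPolynomial σ R)}
    {F : σ → MvPolynomial σ R} (hC : ∀ k, Cm.mulVec F k = C δ * X k ^ N)
    {Hm : Matrix σ σ (MvPolynomial σ R)} (hH : ∀ k, Hm.mulVec (fun j => X j) k = F k) :
    PiF Cm N Hm.det = δ ^ Fintype.card σ := by
  have h1 := coeff_det_eq (T := R) hN (fun _ : σ => 0) δ (Cm * Hm)
    (Matrix.diagonal fun k => C δ * X k ^ (N - 1))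
    (by
      intro k
      simp only [map_zero, sub_zero]
      rw [← Matrix.mulVec_mulVec]
      have : Hm.mulVec (fun j => X j) = F := funext hH
      rw [this, hC])
    (by
      intro k
      simp only [map_zero, sub_zero]
      rw [Matrix.mulVec_diagonal, mul_assoc, ← pow_succ]
      congr 2; omega) 1
  rw [one_mul, one_mul, Matrix.det_mul, Matrix.det_diagonal, prod_C_mul_X_pow_top,
    coeff_monomial, if_pos rfl] at h1
  unfold PiF
  rw [mul_comm, h1]

lemma isHomogeneous_det {M : Matrix σ σ (MvPolynomial σ R)} {a : ℕ}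
    (h : ∀ i j, (M i j).IsHomogeneous a) : M.det.IsHomogeneous (Fintype.card σ * a) := by
  rw [Matrix.det_apply]
  apply IsHomogeneous.sum
  intro p _
  have : (∏ i, M (p i) i).IsHomogeneous (Fintype.card σ * a) := by
    have := IsHomogeneous.prod Finset.univ (fun i => M (p i) i) (fun _ => a)
      (fun i _ => h (p i) i)
    simpa using this
  rcases Int.units_eq_one_or (Equiv.Perm.sign p) with hs | hs
  · rw [hs, one_smul]; exact this
  · rw [hs]
    simpa using this.neg

omit [DecidableEq σ] in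
lemma topExp_degree (N : ℕ) : (topExp σ N).degree = Fintype.card σ * (N - 1) := by
  rw [Finsupp.degree_eq_sum]
  simp [topExp_apply]

lemma PiF_eq_zero_of_degree {N a m : ℕ} {Cm : Matrix σ σ (MvPolynomial σ R)}
    (hCm : ∀ i j, (Cm i j).IsHomogeneous a) {h : MvPolynomial σ R} (hh : h.IsHomogeneous m)
    (hne : m + Fintype.card σ * a ≠ Fintype.card σ * (N - 1)) : PiF Cm N h = 0 := by
  unfold PiF
  have h1 := hh.mul (isHomogeneous_det hCm)
  by_contra hc
  have := h1 hc
  apply hne
  rw [← this, ← topExp_degree N, Finsupp.degree_eq_weight_one]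
  rfl

end

section Theta

variable {R : Type*} [CommRing R] {σ : Type*} [Fintype σ] [DecidableEq σ]

/-- coefficient of `X^(N-1,…)` in `∏ (∑_l X_k^l x_k^(N-1-l))` is `1`. -/
lemma coeff_prod_geom {T : Type*} [CommRing T] {N : ℕ} (hN : 1 ≤ N) (x : σ → T) :
    coeff (topExp σ N) (∏ k : σ, ∑ l ∈ Finset.range N, X k ^ l * C (x k) ^ (N - 1 - l)) =
      (1 : T) := by
  rw [Finset.prod_univ_sum, coeff_sum]
  have hterm : ∀ p : σ → ℕ, (∏ k : σ, (X k ^ (p k) * C (x k) ^ (N - 1 - p k)) :
      MvPolynomial σ T) = monomial (Finsupp.equivFunOnFinite.symm p)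
        (∏ k : σ, x k ^ (N - 1 - p k)) := by
    intro p
    rw [Finset.prod_mul_distrib, monomial_eq, Finsupp.prod_fintype _ _ (by intro i; simp),
      mul_comm, map_prod]
    congr 1
    exact Finset.prod_congr rfl fun k _ => by rw [map_pow]
  rw [Finset.sum_eq_single (fun _ => N - 1)]
  · rw [hterm, coeff_monomial]
    rw [if_pos (by rfl)]
    simp
  · intro p _ hp
    rw [hterm, coeff_monomial, if_neg]
    intro hc
    apply hp
    have := congrArg (fun f : σ →₀ ℕ => (f : σ → ℕ)) hc
    simpa [topExp] using this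
  · intro h
    exfalso; apply h
    rw [Fintype.mem_piFinset]
    intro k; rw [Finset.mem_range]; omega

omit [Fintype σ] [DecidableEq σ] in
/-- Every `P(X) - P(x)` is in the ideal generated by `X_j - x_j`. -/
lemma map_sub_C_mem {T : Type*} [CommRing T] [Algebra R T] (f : MvPolynomial σ R →ₐ[R] T)
    (P : MvPolynomial σ R) :
    MvPolynomial.map (algebraMap R T) P - C (f P) ∈
      Ideal.span (Set.range fun j : σ => (X j - C (f (X j)) : MvPolynomial σ T)) := by
  set I := Ideal.span (Set.range fun j : σ => (X j - C (f (X j)) : MvPolynomial σ T)) with hI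
  rw [← Ideal.Quotient.eq]
  have : (Ideal.Quotient.mk I).comp (MvPolynomial.map (algebraMap R T)) =
      ((Ideal.Quotient.mk I).comp (C : T →+* MvPolynomial σ T)).comp (f : MvPolynomial σ R →+* T) := by
    apply MvPolynomial.ringHom_ext
    · intro r
      simp
    · intro j
      simp only [RingHom.comp_apply, map_X]
      rw [Ideal.Quotient.eq]
      exact Ideal.subset_span ⟨j, rfl⟩
  have h2 := congrArg (fun g : MvPolynomial σ R →+* _ => g P) this
  simpa using h2

/-- **The `Θ`-formula.** -/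
lemma theta_formula {T : Type*} [CommRing T] [Algebra R T]
    {N : ℕ} (hN : 1 ≤ N) {δ : R} {Cm : Matrix σ σ (MvPolynomial σ R)}
    {F : σ → MvPolynomial σ R} (hC : ∀ k, Cm.mulVec F k = C δ * X k ^ N)
    (f : MvPolynomial σ R →ₐ[R] T) (hF0 : ∀ i, f (F i) = 0) :
    ∃ Θ : MvPolynomial σ T,
      ∀ b : MvPolynomial σ R,
        algebraMap R T δ ^ Fintype.card σ * f b =
        coeff (topExp σ N) (MvPolynomial.map (algebraMap R T) (b * Cm.det) * Θ) := by
  let ι : MvPolynomial σ R →+* MvPolynomial σ T := MvPolynomial.map (algebraMap R T)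
  let v : σ → MvPolynomial σ T := fun j => X j - C (f (X j))
  have hθ : ∀ i, ∃ c : σ → MvPolynomial σ T, ∑ j, c j * v j = ι (F i) := by
    intro i
    have := map_sub_C_mem f (F i)
    rw [hF0 i, map_zero, sub_zero, Ideal.mem_span_range_iff_exists_fun] at this
    exact this
  choose θ hθ using hθ
  let θm : Matrix σ σ (MvPolynomial σ T) := θ
  have hθm : ∀ i, θm.mulVec v i = ι (F i) := hθ
  set δ' : T := algebraMap R T δ with hδ'
  let M₂ : Matrix σ σ (MvPolynomial σ T) := ι.mapMatrix Cm * θm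
  have hM₂ : ∀ k, M₂.mulVec v k = C δ' * X k ^ N := by
    intro k
    have e1 : M₂.mulVec v = (ι.mapMatrix Cm).mulVec (fun i => ι (F i)) := by
      change (ι.mapMatrix Cm * θm).mulVec v = _
      rw [← Matrix.mulVec_mulVec]
      congr 1
      funext i; exact hθm i
    rw [e1]
    have e2 : (ι.mapMatrix Cm).mulVec (fun i => ι (F i)) k = ι (Cm.mulVec F k) := by
      simp only [Matrix.mulVec, dotProduct, map_sum, map_mul, RingHom.mapMatrix_apply,
        Matrix.map_apply]
    rw [e2, hC]
    simp [ι, hδ']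
  let B : σ → MvPolynomial σ T := fun k =>
    ∑ l ∈ Finset.range N, X k ^ l * C (f (X k)) ^ (N - 1 - l)
  let M₁ : Matrix σ σ (MvPolynomial σ T) := Matrix.diagonal fun k => C δ' * B k
  have hzero : ∀ k, δ' * f (X k) ^ N = 0 := by
    intro k
    have : f (C δ * X k ^ N) = 0 := by
      rw [← hC k]
      simp only [Matrix.mulVec, dotProduct, map_sum, map_mul, hF0, mul_zero,
        Finset.sum_const_zero]
    rw [map_mul, map_pow] at this
    have h2 : f (C δ) = δ' := by
      rw [← MvPolynomial.algebraMap_eq]; exact f.commutes δ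
    rw [h2] at this
    exact this
  have hM₁ : ∀ k, M₁.mulVec v k = C δ' * X k ^ N := by
    intro k
    change (Matrix.diagonal fun k => C δ' * B k).mulVec v k = _
    rw [Matrix.mulVec_diagonal, mul_assoc]
    have hg : B k * v k = X k ^ N - C (f (X k)) ^ N :=
      geom_sum₂_mul (X k : MvPolynomial σ T) (C (f (X k))) N
    rw [hg, mul_sub, ← C_pow, ← C_mul, hzero, C_0, sub_zero]
  have hcmp := coeff_det_eq hN (fun j => f (X j)) δ' M₁ M₂ hM₁ hM₂ 1
  have hdet1 : coeff (topExp σ N) (1 * M₁.det) = δ' ^ Fintype.card σ := by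
    rw [one_mul]
    change coeff (topExp σ N) (Matrix.diagonal fun k => C δ' * B k).det = _
    rw [Matrix.det_diagonal, Finset.prod_mul_distrib, Finset.prod_const, Finset.card_univ,
      ← C_pow, coeff_C_mul]
    change _ * coeff (topExp σ N) (∏ k : σ, ∑ l ∈ Finset.range N,
      X k ^ l * C (f (X k)) ^ (N - 1 - l)) = _
    rw [coeff_prod_geom hN, mul_one]
  rw [hdet1] at hcmp
  refine ⟨θm.det, fun b => ?_⟩
  have e3 : ι (b * Cm.det) * θm.det = ι b * M₂.det := by
    change _ = ι b * (ι.mapMatrix Cm * θm).det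
    rw [Matrix.det_mul, map_mul, mul_assoc, ← RingHom.map_det]
  change δ' ^ Fintype.card σ * f b = coeff (topExp σ N) (ι (b * Cm.det) * θm.det)
  rw [e3]
  have hvan : coeff (topExp σ N) ((ι b - C (f b)) * M₂.det) = 0 := by
    have := map_sub_C_mem f b
    rw [Ideal.mem_span_range_iff_exists_fun] at this
    obtain ⟨c, hc⟩ := this
    have hc' : ι b - C (f b) = ∑ j, c j * v j := hc.symm
    rw [hc', Finset.sum_mul, coeff_sum]
    refine Finset.sum_eq_zero fun j _ => ?_
    rw [det_mul_eq_sum M₂ v _ hM₂]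
    exact coeff_top_mul_of_sum hN δ' _
  rw [sub_mul, coeff_sub, coeff_C_mul, sub_eq_zero] at hvan
  rw [hvan, mul_comm, hcmp, one_mul]

/-- **Duality in the socle degree**, in an arbitrary quotient `f`. -/
theorem socle_duality_aux {T : Type*} [CommRing T] [Algebra R T]
    {N a ν : ℕ} (hN : 1 ≤ N) {δ : R} {Cm : Matrix σ σ (MvPolynomial σ R)}
    {F : σ → MvPolynomial σ R} (hC : ∀ k, Cm.mulVec F k = C δ * X k ^ N)
    (f : MvPolynomial σ R →ₐ[R] T) (hF0 : ∀ i, f (F i) = 0)
    (hCm : ∀ i j, (Cm i j).IsHomogeneous a)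
    (hν : ν + Fintype.card σ * a = Fintype.card σ * (N - 1))
    {Hm : Matrix σ σ (MvPolynomial σ R)} (hH : ∀ k, Hm.mulVec (fun j => X j) k = F k)
    (hHh : Hm.det.IsHomogeneous ν)
    {b : MvPolynomial σ R} (hb : b.IsHomogeneous ν) :
    f (C (δ ^ Fintype.card σ) * (C (δ ^ Fintype.card σ) * b - C (PiF Cm N b) * Hm.det)) = 0 := by
  obtain ⟨Θ, hΘ⟩ := theta_formula hN hC f hF0
  have key : ∀ g : MvPolynomial σ R, g.IsHomogeneous ν →
      algebraMap R T δ ^ Fintype.card σ * f g =
        coeff 0 Θ * algebraMap R T (PiF Cm N g) := by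
    intro g hg
    rw [hΘ g]
    conv_lhs => rw [Θ.as_sum, Finset.mul_sum, coeff_sum]
    have hterm : ∀ β : σ →₀ ℕ, coeff (topExp σ N)
        (MvPolynomial.map (algebraMap R T) (g * Cm.det) * monomial β (coeff β Θ)) =
        coeff β Θ * algebraMap R T (PiF Cm N (g * monomial β 1)) := by
      intro β
      have e1 : (monomial β (coeff β Θ) : MvPolynomial σ T) =
          C (coeff β Θ) * MvPolynomial.map (algebraMap R T) (monomial β 1) := by
        rw [map_monomial, map_one, C_mul_monomial, mul_one]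
      rw [e1]
      have e2 : MvPolynomial.map (algebraMap R T) (g * Cm.det) *
          (C (coeff β Θ) * MvPolynomial.map (algebraMap R T) (monomial β 1)) =
          C (coeff β Θ) * MvPolynomial.map (algebraMap R T) (g * monomial β 1 * Cm.det) := by
        simp only [map_mul]; ring
      rw [e2, coeff_C_mul, coeff_map]
      rfl
    have hz : ∀ β : σ →₀ ℕ, β ≠ 0 → PiF Cm N (g * monomial β 1) = 0 := by
      intro β hβ
      apply PiF_eq_zero_of_degree hCm (hg.mul (isHomogeneous_monomial (1 : R) rfl))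
      have : 0 < β.degree := by
        rw [Nat.pos_iff_ne_zero]
        intro h0
        exact hβ ((Finsupp.degree_eq_zero_iff β).1 h0)
      omega
    rw [Finset.sum_congr rfl fun β _ => hterm β]
    by_cases h0 : (0 : σ →₀ ℕ) ∈ Θ.support
    · rw [Finset.sum_eq_single_of_mem 0 h0]
      · congr 3
        simp
      · intro β _ hβ
        rw [hz β hβ, map_zero, mul_zero]
    · rw [Finset.sum_eq_zero]
      · rw [MvPolynomial.notMem_support_iff] at h0
        rw [h0, zero_mul]
      · intro β hβ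
        have : β ≠ 0 := by rintro rfl; exact h0 hβ
        rw [hz β this, map_zero, mul_zero]
  have k1 := key b hb
  have k2 := key Hm.det hHh
  rw [PiF_det hN hC hH, map_pow] at k2
  have eC : ∀ r : R, f (C r) = algebraMap R T r := fun r => by
    rw [← MvPolynomial.algebraMap_eq]; exact f.commutes r
  rw [map_mul, map_sub, map_mul, map_mul, eC, eC, map_pow, k1, mul_sub]
  have : algebraMap R T δ ^ Fintype.card σ *
      (algebraMap R T (PiF Cm N b) * f Hm.det) =
      algebraMap R T (PiF Cm N b) *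
        (algebraMap R T δ ^ Fintype.card σ * f Hm.det) := by ring
  rw [this, k2]
  ring

/-- **Duality in the socle degree.** -/
theorem socle_duality {N a ν : ℕ} (hN : 1 ≤ N) {δ : R} {Cm : Matrix σ σ (MvPolynomial σ R)}
    {F : σ → MvPolynomial σ R} (hC : ∀ k, Cm.mulVec F k = C δ * X k ^ N)
    (hCm : ∀ i j, (Cm i j).IsHomogeneous a)
    (hν : ν + Fintype.card σ * a = Fintype.card σ * (N - 1))
    {Hm : Matrix σ σ (MvPolynomial σ R)} (hH : ∀ k, Hm.mulVec (fun j => X j) k = F k)
    (hHh : Hm.det.IsHomogeneous ν)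
    {b : MvPolynomial σ R} (hb : b.IsHomogeneous ν) :
    C (δ ^ Fintype.card σ) * (C (δ ^ Fintype.card σ) * b - C (PiF Cm N b) * Hm.det) ∈
      Ideal.span (Set.range F) := by
  rw [← Ideal.Quotient.eq_zero_iff_mem]
  refine socle_duality_aux hN hC (Ideal.Quotient.mkₐ R (Ideal.span (Set.range F))) ?_ hCm hν
    hH hHh hb
  intro i
  change Ideal.Quotient.mk _ (F i) = 0
  rw [Ideal.Quotient.eq_zero_iff_mem]
  exact Ideal.subset_span ⟨i, rfl⟩

end Theta

end Pool.Agent.W431.PInv
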