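import Pool.Agent.W431.PInv.Final

/-!
# Existence of the discriminant
-/

namespace Pool.Agent.W431.PInv

open MvPolynomial Matrix

section corr

variable {B : Type*} [CommRing B] [Algebra ℂ B] {n : ℕ} (c : ℕ)

/-- linear form -/
noncomputable def linF (l : Fin n → B) : MvPolynomial (Fin n) B := ∑ j, C (l j) * X j

omit [Algebra ℂ B] in
lemma linF_homog (l : Fin n → B) : (linF l).IsHomogeneous 1 := by
  unfold linF
  refine IsHomogeneous.sum _ _ _ fun j _ => ?_
  have := (isHomogeneous_C (Fin n) (l j)).mul (isHomogeneous_X B j)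
  rwa [zero_add] at this

omit [Algebra ℂ B] in
lemma pderiv_linF (l : Fin n → B) (i : Fin n) : pderiv i (linF l) = C (l i) := by
  classical
  unfold linF
  rw [map_sum, Finset.sum_eq_single i]
  · rw [pderiv_C_mul, pderiv_X_self, mul_one]
  · intro j _ hj
    rw [pderiv_C_mul, pderiv_X_of_ne hj, mul_zero]
  · intro h; exact absurd (Finset.mem_univ i) h

/-- correction of `g` which makes it singular at `p`, when `l(p) = 1`. -/
noncomputable def corr (g : MvPolynomial (Fin n) B) (p l : Fin n → B) :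
    MvPolynomial (Fin n) B :=
  g - linF l ^ (c + 1) * (linF (fun j => eval p (pderiv j g)) -
    C (algebraMap ℂ B ((c + 1) / (c + 2)) * ∑ j, eval p (pderiv j g) * p j) * linF l)

lemma corr_homog {g : MvPolynomial (Fin n) B} (hg : g.IsHomogeneous (c + 2)) (p l : Fin n → B) :
    (corr c g p l).IsHomogeneous (c + 2) := by
  unfold corr
  apply hg.sub
  have h1 : (linF (fun j => eval p (pderiv j g)) -
    C (algebraMap ℂ B ((c + 1) / (c + 2)) * ∑ j, eval p (pderiv j g) * p j) * linF l :
      MvPolynomial (Fin n) B).IsHomogeneous 1 := by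
    apply (linF_homog _).sub
    have := (isHomogeneous_C (Fin n) (algebraMap ℂ B ((c + 1) / (c + 2)) *
      ∑ j, eval p (pderiv j g) * p j)).mul (linF_homog l)
    rwa [zero_add] at this
  have := ((linF_homog l).pow (c + 1)).mul h1
  rw [one_mul] at this
  exact this

lemma corr_eq_self {g : MvPolynomial (Fin n) B} {p : Fin n → B} (l : Fin n → B)
    (h : ∀ j, eval p (pderiv j g) = 0) : corr c g p l = g := by
  unfold corr
  simp [h, linF]

lemma corr_singular (g : MvPolynomial (Fin n) B) {p l : Fin n → B}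
    (hl : ∑ j, l j * p j = 1) (i : Fin n) : eval p (pderiv i (corr c g p l)) = 0 := by
  have e1 : ∀ w : Fin n → B, eval p (linF w) = ∑ j, w j * p j := by
    intro w; simp [linF]
  set v : Fin n → B := fun j => eval p (pderiv j g) with hv
  set S : B := ∑ j, v j * p j with hS
  have e2 : pderiv i (corr c g p l) = pderiv i g -
      ((((c + 1 : ℕ) : MvPolynomial (Fin n) B) * linF l ^ c * C (l i)) *
        (linF v - C (algebraMap ℂ B ((c + 1) / (c + 2)) * S) * linF l) +
        linF l ^ (c + 1) * (C (v i) - C (algebraMap ℂ B ((c + 1) / (c + 2)) * S) * C (l i))) := by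
    unfold corr
    rw [map_sub, pderiv_mul, pderiv_pow, pderiv_linF, map_sub, pderiv_C_mul, pderiv_linF,
      pderiv_linF]
    rfl
  rw [e2]
  simp only [map_sub, map_add, map_mul, map_pow, eval_C, e1, hl, one_pow, mul_one, map_natCast,
    one_mul]
  change v i - (((c + 1 : ℕ) : B) * l i * (S - algebraMap ℂ B ((c + 1) / (c + 2)) * S) +
    (v i - algebraMap ℂ B ((c + 1) / (c + 2)) * S * l i)) = 0
  have e3 : ((c + 1 : ℕ) : B) * (1 - algebraMap ℂ B ((c + 1) / (c + 2))) =
      algebraMap ℂ B ((c + 1) / (c + 2)) := by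
    rw [← map_natCast (algebraMap ℂ B), ← map_one (algebraMap ℂ B), ← map_sub, ← map_mul]
    congr 1
    push_cast
    have := cnz c
    field_simp
    ring
  have e4 : ((c + 1 : ℕ) : B) * l i * (S - algebraMap ℂ B ((c + 1) / (c + 2)) * S) =
      (((c + 1 : ℕ) : B) * (1 - algebraMap ℂ B ((c + 1) / (c + 2)))) * (l i * S) := by ring
  rw [e4, e3]
  ring

lemma map_corr {B' : Type*} [CommRing B'] [Algebra ℂ B'] (φ : B →ₐ[ℂ] B')
    (g : MvPolynomial (Fin n) B) (p l : Fin n → B) :
    MvPolynomial.map (φ : B →+* B') (corr c g p l) =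
      corr c (MvPolynomial.map (φ : B →+* B') g) (fun j => φ (p j)) (fun j => φ (l j)) := by
  have e0 : ∀ x : B, (φ : B →+* B') x = φ x := fun _ => rfl
  have e1 : ∀ w : Fin n → B, MvPolynomial.map (φ : B →+* B') (linF w) =
      linF (fun j => φ (w j)) := by
    intro w; simp [linF]
  have e2 : ∀ G : MvPolynomial (Fin n) B, φ (eval p G) =
      eval (fun j => φ (p j)) (MvPolynomial.map (φ : B →+* B') G) := by
    intro G
    rw [MvPolynomial.eval_map]
    have := MvPolynomial.eval₂_comp_left (φ : B →+* B') (RingHom.id B) p G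
    rw [RingHom.comp_id] at this
    exact this
  unfold corr
  rw [map_sub, map_mul, map_pow, map_sub, map_mul, e1, e1, MvPolynomial.map_C]
  simp only [e0, map_mul, map_sum, e2, AlgHom.commutes, pderiv_map]

end corr

section prime

variable {n c : ℕ}

lemma exists_linear {p₁ p₂ : Fin n → ℂ} (h₁ : p₁ ≠ 0) (h₂ : p₂ ≠ 0) :
    ∃ l : Fin n → ℂ, (∑ j, l j * p₁ j) ≠ 0 ∧ (∑ j, l j * p₂ j) ≠ 0 := by
  classical
  obtain ⟨i, hi⟩ := Function.ne_iff.1 h₁
  obtain ⟨j, hj⟩ := Function.ne_iff.1 h₂
  simp only [Pi.zero_apply] at hi hj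
  have hs : ∀ (a : Fin n) (p : Fin n → ℂ), ∑ x, (Pi.single a (1 : ℂ) : Fin n → ℂ) x * p x = p a := by
    intro a p
    simp [Pi.single_apply]
  by_cases h3 : p₂ i = 0
  · by_cases h4 : p₁ j = 0
    · refine ⟨fun x => (Pi.single i (1 : ℂ) : Fin n → ℂ) x + (Pi.single j (1 : ℂ) : Fin n → ℂ) x,
        ?_, ?_⟩
      · simp only [add_mul, Finset.sum_add_distrib, hs, h4, add_zero]; exact hi
      · simp only [add_mul, Finset.sum_add_distrib, hs, h3, zero_add]; exact hj
    · exact ⟨Pi.single j 1, by rw [hs]; exact h4, by rw [hs]; exact hj⟩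
  · exact ⟨Pi.single i 1, by rw [hs]; exact hi, by rw [hs]; exact h3⟩

lemma singular_scale {f : MvPolynomial (Fin n) ℂ} (hf : f.IsHomogeneous (c + 2))
    {p : Fin n → ℂ} (h : ∀ j, eval p (pderiv j f) = 0) (x : ℂ) (j : Fin n) :
    eval (fun i => x * p i) (pderiv j f) = 0 := by
  have h1 := isHomogeneous_pderiv hf j
  have h2 : eval (x • p) (pderiv j f) = x ^ (c + 2 - 1) * eval p (pderiv j f) := by
    rw [MvPolynomial.eval_eq', MvPolynomial.eval_eq', Finset.mul_sum]
    refine Finset.sum_congr rfl fun m hm => ?_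
    have hdeg : ∑ i, m i = c + 2 - 1 := by
      have := h1 (mem_support_iff.1 hm)
      rw [← this, ← Finsupp.degree_eq_sum, Finsupp.degree_eq_weight_one]
      rfl
    simp only [Pi.smul_apply, smul_eq_mul, mul_pow, Finset.prod_mul_distrib,
      Finset.prod_pow_eq_pow_sum, hdeg]
    ring
  have h3 : (fun i => x * p i) = x • p := rfl
  rw [h3, h2, h j, mul_zero]

/-- The vanishing ideal of the singular forms. -/
noncomputable def vanI (n d : ℕ) : Ideal (CR n d) where
  carrier := {P | ∀ f : MvPolynomial (Fin n) ℂ, f.IsHomogeneous d → IsSingular f → evalAt P f = 0}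
  zero_mem' := by intro f _ _; simp [evalAt]
  add_mem' := by
    intro a b ha hb f hf hs
    have h1 := ha f hf hs
    have h2 := hb f hf hs
    simp only [evalAt, map_add] at *
    rw [h1, h2, add_zero]
  smul_mem' := by
    intro x a ha f hf hs
    have h1 := ha f hf hs
    simp only [evalAt, smul_eq_mul, map_mul] at *
    rw [h1, mul_zero]

lemma mem_vanI {d : ℕ} {P : CR n d} : P ∈ vanI n d ↔
    ∀ f : MvPolynomial (Fin n) ℂ, f.IsHomogeneous d → IsSingular f → evalAt P f = 0 := Iff.rfl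

/-- The vanishing ideal is prime. -/
lemma vanI_mem_or_mem {P Q : CR n (c + 2)} (h : P * Q ∈ vanI n (c + 2)) :
    P ∈ vanI n (c + 2) ∨ Q ∈ vanI n (c + 2) := by
  by_contra hcon
  push Not at hcon
  obtain ⟨hP, hQ⟩ := hcon
  rw [mem_vanI] at hP hQ
  push Not at hP hQ
  obtain ⟨f₁, hf₁, ⟨p₁, hp₁, hs₁⟩, hP1⟩ := hP
  obtain ⟨f₂, hf₂, ⟨p₂, hp₂, hs₂⟩, hQ2⟩ := hQ
  obtain ⟨l, hl₁, hl₂⟩ := exists_linear hp₁ hp₂
  -- rescale
  set q₁ : Fin n → ℂ := fun i => (∑ j, l j * p₁ j)⁻¹ * p₁ i with hq₁
  set q₂ : Fin n → ℂ := fun i => (∑ j, l j * p₂ j)⁻¹ * p₂ i with hq₂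
  have hlq₁ : ∑ j, l j * q₁ j = 1 := by
    have : ∑ j, l j * q₁ j = (∑ j, l j * p₁ j)⁻¹ * ∑ j, l j * p₁ j := by
      rw [Finset.mul_sum]; exact Finset.sum_congr rfl fun j _ => by rw [hq₁]; ring
    rw [this, inv_mul_cancel₀ hl₁]
  have hlq₂ : ∑ j, l j * q₂ j = 1 := by
    have : ∑ j, l j * q₂ j = (∑ j, l j * p₂ j)⁻¹ * ∑ j, l j * p₂ j := by
      rw [Finset.mul_sum]; exact Finset.sum_congr rfl fun j _ => by rw [hq₂]; ring
    rw [this, inv_mul_cancel₀ hl₂]
  have hsq₁ := singular_scale hf₁ hs₁ (∑ j, l j * p₁ j)⁻¹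
  have hsq₂ := singular_scale hf₂ hs₂ (∑ j, l j * p₂ j)⁻¹
  -- the family
  set T : Polynomial ℂ := Polynomial.X with hT
  let R := Polynomial ℂ
  let G : MvPolynomial (Fin n) (Polynomial ℂ) :=
    C (1 - T) * MvPolynomial.map (algebraMap ℂ (Polynomial ℂ)) f₁ +
      C T * MvPolynomial.map (algebraMap ℂ (Polynomial ℂ)) f₂
  have hG : G.IsHomogeneous (c + 2) := by
    apply IsHomogeneous.add
    · have := (isHomogeneous_C (Fin n) (1 - T)).mul (hf₁.map (algebraMap ℂ (Polynomial ℂ)))
      rwa [zero_add] at this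
    · have := (isHomogeneous_C (Fin n) T).mul (hf₂.map (algebraMap ℂ (Polynomial ℂ)))
      rwa [zero_add] at this
  let pT : Fin n → Polynomial ℂ := fun j =>
    (1 - T) * algebraMap ℂ (Polynomial ℂ) (q₁ j) + T * algebraMap ℂ (Polynomial ℂ) (q₂ j)
  let lT : Fin n → Polynomial ℂ := fun j => algebraMap ℂ (Polynomial ℂ) (l j)
  set K := corr c G pT lT with hK
  have hKh : K.IsHomogeneous (c + 2) := corr_homog c hG _ _
  -- values
  have hKs : ∀ s : ℂ, MvPolynomial.map ((Polynomial.aeval s : Polynomial ℂ →ₐ[ℂ] ℂ) :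
      Polynomial ℂ →+* ℂ) K =
      corr c (C (1 - s) * f₁ + C s * f₂) (fun j => (1 - s) * q₁ j + s * q₂ j) l := by
    intro s
    rw [hK, map_corr]
    have e0 : ((Polynomial.aeval s : Polynomial ℂ →ₐ[ℂ] ℂ) : Polynomial ℂ →+* ℂ).comp
        (algebraMap ℂ (Polynomial ℂ)) = RingHom.id ℂ := by
      ext z; simp
    have e1 : MvPolynomial.map ((Polynomial.aeval s : Polynomial ℂ →ₐ[ℂ] ℂ) :
        Polynomial ℂ →+* ℂ) G = C (1 - s) * f₁ + C s * f₂ := by
      change MvPolynomial.map ((Polynomial.aeval s : Polynomial ℂ →ₐ[ℂ] ℂ) :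
        Polynomial ℂ →+* ℂ) (C (1 - T) * MvPolynomial.map (algebraMap ℂ (Polynomial ℂ)) f₁ +
          C T * MvPolynomial.map (algebraMap ℂ (Polynomial ℂ)) f₂) = _
      rw [map_add, map_mul, map_mul, MvPolynomial.map_map, MvPolynomial.map_map, e0,
        MvPolynomial.map_id, MvPolynomial.map_id, MvPolynomial.map_C, MvPolynomial.map_C]
      simp [hT]
    rw [e1]
    congr 1
    · funext j
      simp [pT, hT]
      ring
    · funext j
      simp [lT]
  let ψ : CR n (c + 2) →ₐ[ℂ] Polynomial ℂ :=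
    MvPolynomial.aeval (fun m : Expo n (c + 2) => MvPolynomial.coeff m.1 K)
  have hψ : ∀ (s : ℂ) (W : CR n (c + 2)), Polynomial.eval s (ψ W) =
      evalAt W (corr c (C (1 - s) * f₁ + C s * f₂) (fun j => (1 - s) * q₁ j + s * q₂ j) l) := by
    intro s W
    have h1 : ((Polynomial.aeval s : Polynomial ℂ →ₐ[ℂ] ℂ).comp ψ) =
        MvPolynomial.aeval (fun m : Expo n (c + 2) =>
          MvPolynomial.coeff m.1 (corr c (C (1 - s) * f₁ + C s * f₂)
            (fun j => (1 - s) * q₁ j + s * q₂ j) l)) := by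
      apply MvPolynomial.algHom_ext
      intro m
      rw [← hKs s]
      simp [ψ, MvPolynomial.coeff_map]
    have h3 := congrArg (fun g : CR n (c + 2) →ₐ[ℂ] ℂ => g W) h1
    rw [← Polynomial.coe_aeval_eq_eval]
    simpa [evalAt, MvPolynomial.aeval_def] using h3
  have hprod : ψ P * ψ Q = 0 := by
    rw [← map_mul]
    apply Polynomial.funext
    intro s
    rw [hψ, Polynomial.eval_zero]
    apply h
    · apply corr_homog
      apply IsHomogeneous.add
      · have := (isHomogeneous_C (Fin n) (1 - s)).mul hf₁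
        rwa [zero_add] at this
      · have := (isHomogeneous_C (Fin n) s).mul hf₂
        rwa [zero_add] at this
    · have hls : ∑ j, l j * ((1 - s) * q₁ j + s * q₂ j) = 1 := by
        have : ∑ j, l j * ((1 - s) * q₁ j + s * q₂ j) =
            (1 - s) * ∑ j, l j * q₁ j + s * ∑ j, l j * q₂ j := by
          rw [Finset.mul_sum, Finset.mul_sum, ← Finset.sum_add_distrib]
          exact Finset.sum_congr rfl fun j _ => by ring
        rw [this, hlq₁, hlq₂]; ring
      refine ⟨fun j => (1 - s) * q₁ j + s * q₂ j, ?_, ?_⟩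
      · intro h0
        have : ∑ j, l j * ((1 - s) * q₁ j + s * q₂ j) = 0 := by
          apply Finset.sum_eq_zero
          intro j _
          have := congrFun h0 j
          simp only [Pi.zero_apply] at this
          rw [this, mul_zero]
        rw [hls] at this
        exact one_ne_zero this
      · exact fun j => corr_singular c _ hls j
  rcases mul_eq_zero.1 hprod with h0 | h0
  · apply hP1
    have h1 := hψ 0 P
    rw [h0, Polynomial.eval_zero] at h1
    have e : corr c (C (1 - 0) * f₁ + C 0 * f₂) (fun j => (1 - 0) * q₁ j + 0 * q₂ j) l = f₁ := by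
      have e1 : (C (1 - 0) * f₁ + C 0 * f₂ : MvPolynomial (Fin n) ℂ) = f₁ := by simp
      have e2 : (fun j => (1 - 0) * q₁ j + 0 * q₂ j) = q₁ := by funext j; simp
      rw [e1, e2]
      exact corr_eq_self c l hsq₁
    rw [e] at h1
    exact h1.symm
  · apply hQ2
    have h1 := hψ 1 Q
    rw [h0, Polynomial.eval_zero] at h1
    have e : corr c (C (1 - 1) * f₁ + C 1 * f₂) (fun j => (1 - 1) * q₁ j + 1 * q₂ j) l = f₂ := by
      have e1 : (C (1 - 1) * f₁ + C 1 * f₂ : MvPolynomial (Fin n) ℂ) = f₂ := by simp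
      have e2 : (fun j => (1 - 1) * q₁ j + 1 * q₂ j) = q₂ := by funext j; simp
      rw [e1, e2]
      exact corr_eq_self c l hsq₂
    rw [e] at h1
    exact h1.symm

end prime

section closed

variable {n c : ℕ}

/-- The singular forms are Zariski closed. -/
lemma exists_not_vanish {f : MvPolynomial (Fin n) ℂ} (hn : 1 ≤ n) (hf : f.IsHomogeneous (c + 2))
    (hns : ¬ IsSingular f) : ∃ q ∈ vanI n (c + 2), evalAt q f ≠ 0 := by
  classical
  -- Nullstellensatz for f
  have hX : ∀ i : Fin n, ∃ N : ℕ, (X i : MvPolynomial (Fin n) ℂ) ^ N ∈ jac f := by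
    intro i
    have : (X i : MvPolynomial (Fin n) ℂ) ∈ (jac f).radical := by
      rw [← vanishingIdeal_zeroLocus_eq_radical (K := ℂ), mem_vanishingIdeal_iff]
      intro x hx
      by_contra hne
      apply hns
      refine ⟨x, ?_, fun j => ?_⟩
      · rintro rfl
        apply hne; simp
      · have := hx _ (Ideal.subset_span ⟨j, rfl⟩)
        simpa [MvPolynomial.aeval_def] using this
    exact this
  choose Ni hNi using hX
  set N := (∑ i, Ni i) + (c + 1) with hN
  have hle : ∀ i, Ni i ≤ N := fun i =>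
    (Finset.single_le_sum (f := Ni) (fun _ _ => Nat.zero_le _) (Finset.mem_univ i)).trans
      (Nat.le_add_right _ _)
  set ν := n * N with hν
  have hmon : ∀ m : Expo n ν, (monomial m.1 1 : MvPolynomial (Fin n) ℂ) ∈ jac f := by
    intro m
    have : ∃ i, N ≤ m.1 i := by
      by_contra hcon
      push Not at hcon
      have h1 : m.1.degree = ∑ i, m.1 i := Finsupp.degree_eq_sum m.1
      have hne : (Finset.univ : Finset (Fin n)).Nonempty := ⟨⟨0, by omega⟩, Finset.mem_univ _⟩
      have h2 : ∑ i, m.1 i < ∑ _i : Fin n, N :=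
        Finset.sum_lt_sum_of_nonempty hne fun i _ => hcon i
      have h3 : ∑ _i : Fin n, N = n * N := by simp
      have h4 := m.2
      omega
    obtain ⟨i, hi⟩ := this
    have e : (monomial m.1 1 : MvPolynomial (Fin n) ℂ) =
        monomial (m.1 - Finsupp.single i (Ni i)) 1 * X i ^ (Ni i) := by
      rw [X_pow_eq_monomial, monomial_mul, mul_one, tsub_add_cancel_of_le]
      rw [Finsupp.single_le_iff]
      exact (hle i).trans hi
    rw [e]
    exact Ideal.mul_mem_left _ _ (hNi i)
  set ρ : CR n (c + 2) →ₐ[ℂ] ℂ := MvPolynomial.aeval (fun m : Expo n (c + 2) =>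
        MvPolynomial.coeff m.1 f) with hρ
  have hρspec : ∀ P, ρ P = evalAt P f := by
    intro P
    simp [hρ, evalAt, MvPolynomial.aeval_def]
  have hρG : MvPolynomial.map (ρ : CR n (c + 2) →+* ℂ) (gen n (c + 2)) = f := by
    have h1 : (ρ : CR n (c + 2) →+* ℂ) = spec (c + 2) f := by
      ext P <;> simp [hρ, spec]
    rw [h1]
    exact map_spec_gen hf
  have hle' : c + 1 ≤ ν := by
    calc c + 1 ≤ N := by omega
      _ = 1 * N := (one_mul _).symm
      _ ≤ n * N := Nat.mul_le_mul_right _ hn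
  obtain ⟨q, hq1, hq2⟩ := nakayama_ideal ρ (ν := ν) (e := c + 1) hle'
    (F := fun j => pderiv j (gen n (c + 2))) (fun j => isHomogeneous_pderiv gen_homog j)
    (u := 0) (isHomogeneous_zero _ _ _) (by
      intro m
      refine ⟨0, ?_⟩
      rw [C_0, zero_mul, sub_zero]
      have e2 : (fun j => MvPolynomial.map (ρ : CR n (c + 2) →+* ℂ)
          (pderiv j (gen n (c + 2)))) = fun j => pderiv j f := by
        funext j
        rw [← pderiv_map, hρG]
      rw [e2]
      exact hmon m)
  refine ⟨q, ?_, ?_⟩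
  · intro g hg ⟨z, hz, hs⟩
    obtain ⟨j, hj⟩ := Function.ne_iff.1 hz
    simp only [Pi.zero_apply] at hj
    have hXh : (X j ^ ν : MvPolynomial (Fin n) (CR n (c + 2))).IsHomogeneous ν := by
      have := (isHomogeneous_X (CR n (c + 2)) j).pow ν
      rwa [one_mul] at this
    obtain ⟨β, hβ⟩ := hq2 _ hXh
    rw [mul_zero, sub_zero] at hβ
    rw [Ideal.mem_span_range_iff_exists_fun] at hβ
    obtain ⟨a, ha⟩ := hβ
    have h1 := congrArg (fun P => eval z (MvPolynomial.map (spec (c + 2) g) P)) ha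
    simp only [map_sum, map_mul, MvPolynomial.map_C, eval_C, map_pow, MvPolynomial.map_X,
      eval_X] at h1
    have h2 : ∀ i, eval z (MvPolynomial.map (spec (c + 2) g) (pderiv i (gen n (c + 2)))) = 0 := by
      intro i
      rw [← pderiv_map, map_spec_gen hg]
      exact hs i
    simp only [h2, mul_zero, Finset.sum_const_zero] at h1
    rcases mul_eq_zero.1 h1.symm with h3 | h3
    · exact h3
    · exact absurd h3 (pow_ne_zero _ hj)
  · rw [← hρspec, hq1]
    exact one_ne_zero

end closed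

section principal

variable {k c : ℕ}

/-- There is an irreducible polynomial `π` dividing every element of the vanishing ideal. -/
lemma exists_irred (hk : 1 ≤ k) (hc : 1 ≤ c) :
    ∃ π : CR (k + 1) (c + 2), Irreducible π ∧ ∀ P ∈ vanI (k + 1) (c + 2), π ∣ P := by
  set G := gen (k + 1) (c + 2) with hG
  set ρ : CR (k + 1) (c + 2) →ₐ[ℂ] ℂ := MvPolynomial.aeval (fun m : Expo (k + 1) (c + 2) =>
        MvPolynomial.coeff m.1 (baseForm k c (0 : ℂ))) with hρ
  have hρspec : ∀ P, ρ P = evalAt P (baseForm k c (0 : ℂ)) := by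
    intro P
    simp [hρ, evalAt, MvPolynomial.aeval_def]
  have hρG : MvPolynomial.map (ρ : CR (k + 1) (c + 2) →+* ℂ) G = baseForm k c (0 : ℂ) := by
    have h1 : (ρ : CR (k + 1) (c + 2) →+* ℂ) = spec (c + 2) (baseForm k c (0 : ℂ)) := by
      ext P <;> simp [hρ, spec]
    rw [h1]
    exact map_spec_gen (baseForm_homog k c 0)
  have hle : c + 1 ≤ (k + 1) * c := by nlinarith
  obtain ⟨i, hi⟩ : ∃ i : Fin (k + 1) →₀ ℕ, i.degree = (k + 1) * c :=
    ⟨Finsupp.single 0 ((k + 1) * c), Finsupp.degree_single _ _⟩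
  have hih : (monomial i 1 : MvPolynomial (Fin (k + 1)) (CR (k + 1) (c + 2))).IsHomogeneous
      ((k + 1) * c) := isHomogeneous_monomial _ hi
  obtain ⟨q, hq1, hq2⟩ := nakayama_ideal ρ (ν := (k + 1) * c) (e := c + 1) hle
    (F := fun j => pderiv j G) (fun j => isHomogeneous_pderiv gen_homog j)
    (u := monomial i 1) hih (by
      intro m
      obtain ⟨x, hx⟩ := span_base i m.1 hi m.2
      refine ⟨x, ?_⟩
      have e1 : MvPolynomial.map (ρ : CR (k + 1) (c + 2) →+* ℂ) (monomial i 1) =
          monomial i 1 := by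
        rw [MvPolynomial.map_monomial, map_one]
      rw [e1]
      have e2 : (fun j => MvPolynomial.map (ρ : CR (k + 1) (c + 2) →+* ℂ) (pderiv j G)) =
          fun j => pderiv j (baseForm k c (0 : ℂ)) := by
        funext j
        rw [← pderiv_map, hρG]
      rw [e2]
      exact hx)
  have hHh : (hess G).IsHomogeneous ((k + 1) * c) := hess_homog gen_homog
  obtain ⟨h, hh⟩ := hq2 (hess G) hHh
  -- the functional
  set φ := phi k c with hφ
  set T : Polynomial ℂ := Polynomial.X with hT
  have h1 : MvPolynomial.map (φ : CR (k + 1) (c + 2) →+* Polynomial ℂ)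
      (C q * hess G - C h * monomial i 1) ∈ jac (baseForm k c T) := by
    have := Ideal.mem_map_of_mem
      (MvPolynomial.map (φ : CR (k + 1) (c + 2) →+* Polynomial ℂ)) hh
    rw [Ideal.map_span, ← Set.range_comp] at this
    have e3 : (⇑(MvPolynomial.map (φ : CR (k + 1) (c + 2) →+* Polynomial ℂ)) ∘
        fun j => pderiv j G) = fun j => pderiv j (baseForm k c T) := by
      funext j
      rw [Function.comp_apply, ← pderiv_map, map_phi_gen]
    rw [e3] at this
    exact this
  rw [map_sub, map_mul, map_mul, MvPolynomial.map_C, MvPolynomial.map_C, ← map_hess,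
    map_phi_gen, MvPolynomial.map_monomial, map_one (φ : CR (k + 1) (c + 2) →+* Polynomial ℂ)] at h1
  have hhom : (C ((φ : CR (k + 1) (c + 2) →+* Polynomial ℂ) q) * hess (baseForm k c T) -
      C ((φ : CR (k + 1) (c + 2) →+* Polynomial ℂ) h) * monomial i 1).IsHomogeneous
      ((k + 1) * c) := by
    apply IsHomogeneous.sub
    · have := (isHomogeneous_C (Fin (k + 1))
        ((φ : CR (k + 1) (c + 2) →+* Polynomial ℂ) q)).mul
        (hess_homog (baseForm_homog k c T))
      rwa [zero_add] at this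
    · have := (isHomogeneous_C (Fin (k + 1))
        ((φ : CR (k + 1) (c + 2) →+* Polynomial ℂ) h)).mul
        (isHomogeneous_monomial (1 : Polynomial ℂ) hi)
      rwa [zero_add] at this
  have h2 := Lam_kills k c hk hc T hhom h1
  rw [Lam_sub, Lam_C_mul, Lam_C_mul, Lam_hess, sub_eq_zero] at h2
  have hc0 : ((c : ℂ) + 1) ≠ 0 := Nat.cast_add_one_ne_zero c
  have hq0 : Polynomial.aeval (0 : ℂ) (φ q) = 1 := by
    have := eval_phi (k := k) (c := c) 0 q
    rw [← hρspec, hq1] at this
    exact this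
  have hΛ0 : Polynomial.aeval (0 : ℂ) (∏ κ, lam k c T κ) = 0 := by
    rw [map_prod]
    apply Finset.prod_eq_zero (Finset.mem_univ (fun _ => 0))
    rw [map_lam, hT, Polynomial.aeval_X]
    unfold lam
    rw [(alp_eq_zero_iff k c _).2 rfl, map_zero, sub_zero]
  have hL0 : Polynomial.aeval (0 : ℂ) (Lam k c T (monomial i 1)) =
      Lam k c (0 : ℂ) (monomial i 1) := by
    rw [map_Lam, hT, Polynomial.aeval_X, MvPolynomial.map_monomial]
    simp
  have hh0 : evalAt h (baseForm k c (0 : ℂ)) = 0 := by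
    have h3 := congrArg (Polynomial.aeval (0 : ℂ)) h2
    rw [map_mul, map_mul, map_mul, hΛ0, mul_zero, mul_zero, hL0, Lam_zero_monomial] at h3
    have h4 : Polynomial.aeval (0 : ℂ) (φ h) = evalAt h (baseForm k c (0 : ℂ)) := eval_phi 0 h
    rcases mul_eq_zero.1 h3.symm with h5 | h5
    · rw [← h4]; exact h5
    · exact absurd h5 (prod_lam_ne_zero k c)
  have hΛne : (∏ κ, lam k c T κ) ≠ 0 := by
    rw [Finset.prod_ne_zero_iff]
    intro κ _ h0
    have : T = Polynomial.C (alp k c κ) := by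
      unfold lam at h0
      rw [sub_eq_zero] at h0
      exact h0.symm
    have h2 := congrArg Polynomial.natDegree this
    rw [hT, Polynomial.natDegree_X, Polynomial.natDegree_C] at h2
    omega
  have hne : h ≠ 0 := by
    rintro rfl
    have e : (φ : CR (k + 1) (c + 2) →+* Polynomial ℂ) 0 = 0 := map_zero _
    rw [e, zero_mul] at h2
    rcases mul_eq_zero.1 h2 with h5 | h5
    · have : φ q = 0 := h5
      rw [this, map_zero] at hq0
      exact zero_ne_one hq0
    · rcases mul_eq_zero.1 h5 with h6 | h6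
      · rw [neg_eq_zero, map_eq_zero_iff _ (algebraMap ℂ (Polynomial ℂ)).injective] at h6
        exact pow_ne_zero _ hc0 h6
      · exact hΛne h6
  -- a prime factor of `h` vanishing at the base form
  obtain ⟨s, hs1, u, hs2⟩ := UniqueFactorizationMonoid.exists_prime_factors h hne
  have hprod : evalAt s.prod (baseForm k c (0 : ℂ)) = 0 := by
    have : evalAt h (baseForm k c (0 : ℂ)) = evalAt s.prod (baseForm k c (0 : ℂ)) *
        evalAt (u : CR (k + 1) (c + 2)) (baseForm k c (0 : ℂ)) := by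
      rw [← hs2]; simp [evalAt]
    rw [hh0] at this
    rcases mul_eq_zero.1 this.symm with h5 | h5
    · exact h5
    · exfalso
      have h6 : IsUnit (evalAt (u : CR (k + 1) (c + 2)) (baseForm k c (0 : ℂ))) := by
        rw [evalAt_eq_spec]
        exact (u.isUnit).map _
      rw [h5] at h6
      exact not_isUnit_zero h6
  have hfac : ∃ π ∈ s, evalAt π (baseForm k c (0 : ℂ)) = 0 := by
    rw [evalAt_eq_spec, map_multiset_prod, Multiset.prod_eq_zero_iff, Multiset.mem_map] at hprod
    exact hprod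
  obtain ⟨π, hπs, hπ0⟩ := hfac
  have hπ : Prime π := hs1 π hπs
  have hπh : π ∣ h := by
    rw [← hs2]
    exact Dvd.dvd.mul_right (Multiset.dvd_prod hπs) _
  refine ⟨π, hπ.irreducible, fun P hP => ?_⟩
  obtain ⟨N, hN, _, Cm, _, hC⟩ := exists_transition (by omega : 2 ≤ c + 2) hP
  have hh' : C q * hess G - C h * monomial i 1 ∈ Ideal.span (Set.range (Fv G)) := by
    rw [span_Fv (by omega) gen_homog]
    exact hh
  have h7 := PiF_eq_zero_of_mem hN hC hh'
  rw [PiF_sub, PiF_C_mul, PiF_C_mul, PiF_gen_hess hN hC, sub_eq_zero] at h7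
  have h8 : π ∣ q * P ^ (N * (k + 1)) := by
    rw [h7]; exact Dvd.dvd.mul_right hπh _
  rcases hπ.dvd_or_dvd h8 with h9 | h9
  · exfalso
    obtain ⟨w, hw⟩ := h9
    have : evalAt q (baseForm k c (0 : ℂ)) = 0 := by
      rw [hw]
      have : evalAt (π * w) (baseForm k c (0 : ℂ)) = evalAt π (baseForm k c (0 : ℂ)) *
        evalAt w (baseForm k c (0 : ℂ)) := by simp [evalAt]
      rw [this, hπ0, zero_mul]
    rw [← hρspec, hq1] at this
    exact one_ne_zero this
  · exact hπ.dvd_of_dvd_pow h9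

/-- A non-singular member of the base family. -/
lemma exists_nonsingular : ∃ f : MvPolynomial (Fin (k + 1)) ℂ, f.IsHomogeneous (c + 2) ∧
    ¬ IsSingular f := by
  obtain ⟨s, hs⟩ := Infinite.exists_notMem_finset
    (Finset.univ.image fun κ : Fin k → Fin (c + 1) => alp k c κ)
  refine ⟨baseForm k c s, baseForm_homog k c s, not_singular k c fun κ h => hs ?_⟩
  rw [Finset.mem_image]
  refine ⟨κ, Finset.mem_univ _, ?_⟩
  unfold lam at h
  rw [sub_eq_zero] at h
  exact h

/-- **Existence of the discriminant.** -/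
theorem exists_isDiscriminant' (hk : 1 ≤ k) (hc : 1 ≤ c) :
    ∃ Δ : CR (k + 1) (c + 2), IsDiscriminant Δ := by
  obtain ⟨π, hπ, hdvd⟩ := exists_irred hk hc
  obtain ⟨f, hf, hns⟩ := exists_nonsingular (k := k) (c := c)
  obtain ⟨P, hP, hPf⟩ := exists_not_vanish (by omega) hf hns
  have hPne : P ≠ 0 := by
    rintro rfl
    apply hPf
    simp [evalAt]
  -- some prime factor of P is in the ideal
  have hfac : ∀ s : Multiset (CR (k + 1) (c + 2)), s.prod ∈ vanI (k + 1) (c + 2) →
      ∃ p ∈ s, p ∈ vanI (k + 1) (c + 2) := by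
    intro s
    induction s using Multiset.induction_on with
    | empty =>
      intro h
      exfalso
      have h1 := h (baseForm k c (0 : ℂ)) (baseForm_homog k c 0) (singular_zero k c)
      simp [evalAt] at h1
    | cons a s ih =>
      intro h
      rw [Multiset.prod_cons] at h
      rcases vanI_mem_or_mem h with h1 | h1
      · exact ⟨a, Multiset.mem_cons_self a s, h1⟩
      · obtain ⟨p, hp1, hp2⟩ := ih h1
        exact ⟨p, Multiset.mem_cons_of_mem hp1, hp2⟩
  obtain ⟨s, hs1, u, hs2⟩ := UniqueFactorizationMonoid.exists_prime_factors P hPne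
  have hsP : s.prod ∈ vanI (k + 1) (c + 2) := by
    have : s.prod = P * (u⁻¹ : (CR (k + 1) (c + 2))ˣ) := by
      rw [← hs2, mul_assoc, Units.mul_inv, mul_one]
    rw [this]
    exact Ideal.mul_mem_right _ _ hP
  obtain ⟨p, hps, hpv⟩ := hfac s hsP
  have hassoc : Associated π p :=
    hπ.associated_of_dvd (hs1 p hps).irreducible (hdvd p hpv)
  have hπv : π ∈ vanI (k + 1) (c + 2) := by
    obtain ⟨w, hw⟩ := hassoc.symm
    rw [← hw]
    exact Ideal.mul_mem_right _ _ hpv
  refine ⟨π, hπ, fun f hf => ⟨fun h => ?_, fun h => hπv f hf h⟩⟩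
  by_contra hns
  obtain ⟨Q, hQ, hQf⟩ := exists_not_vanish (by omega) hf hns
  obtain ⟨w, hw⟩ := hdvd Q hQ
  apply hQf
  rw [hw]
  have : evalAt (π * w) f = evalAt π f * evalAt w f := by simp [evalAt]
  rw [this, h, zero_mul]

end principal

theorem exists_isDiscriminant {n d : ℕ} (hn : 2 ≤ n) (hd : 3 ≤ d) :
    ∃ Δ : CR n d, IsDiscriminant Δ := by
  obtain ⟨k, rfl⟩ : ∃ k, n = k + 1 := ⟨n - 1, by omega⟩
  obtain ⟨c, rfl⟩ : ∃ c, d = c + 2 := ⟨d - 2, by omega⟩
  exact exists_isDiscriminant' (by omega) (by omega)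

end Pool.Agent.W431.PInv
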