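import Pool.Agent.W431.PInv.Base2

/-!
# Assembly: `p(n,d) = 1`
-/

namespace Pool.Agent.W431.PInv

open MvPolynomial Matrix

section nat

variable {B B' : Type*} [CommRing B] [Algebra ℂ B] [CommRing B'] [Algebra ℂ B'] (k c : ℕ)

lemma map_baseForm (φ : B →ₐ[ℂ] B') (t : B) :
    MvPolynomial.map (φ : B →+* B') (baseForm k c t) = baseForm k c (φ t) := by
  have h : ∀ x : ℂ, (φ : B →+* B') (algebraMap ℂ B x) = algebraMap ℂ B' x := fun x => φ.commutes x
  unfold baseForm
  simp only [map_add, map_sum, map_sub, map_mul, MvPolynomial.map_C, map_pow, MvPolynomial.map_X,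
    h, map_natCast]
  rfl

lemma map_lam (φ : B →ₐ[ℂ] B') (t : B) (κ : Fin k → Fin (c + 1)) :
    φ (lam k c t κ) = lam k c (φ t) κ := by
  simp only [lam, map_sub, AlgHom.commutes]

lemma map_evp (φ : B →ₐ[ℂ] B') (κ : Fin k → Fin (c + 1)) (g : MvPolynomial (Fin (k + 1)) B) :
    φ (evp k c κ g) = evp k c κ (MvPolynomial.map (φ : B →+* B') g) := by
  unfold evp
  rw [MvPolynomial.eval_map]
  have := MvPolynomial.eval₂_comp_left (φ : B →+* B') (RingHom.id B)
    (fun i => algebraMap ℂ B (pt k c κ i)) g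
  rw [RingHom.comp_id] at this
  have h2 : ((φ : B →+* B') ∘ fun i => algebraMap ℂ B (pt k c κ i)) =
      fun i => algebraMap ℂ B' (pt k c κ i) := by
    funext i; exact φ.commutes _
  rw [h2] at this
  exact this

lemma map_Lam (φ : B →ₐ[ℂ] B') (t : B) (g : MvPolynomial (Fin (k + 1)) B) :
    φ (Lam k c t g) = Lam k c (φ t) (MvPolynomial.map (φ : B →+* B') g) := by
  unfold Lam
  simp only [map_sum, map_mul, map_prod, map_evp, map_lam, AlgHom.commutes]

lemma Lam_zero_monomial (b : Fin (k + 1) →₀ ℕ) :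
    Lam k c (0 : ℂ) (monomial b 1) =
      ∏ κ' ∈ Finset.univ.erase (fun _ => 0), lam k c (0 : ℂ) κ' := by
  have h0 : lam k c (0 : ℂ) (fun _ => 0) = 0 := by
    unfold lam
    rw [(alp_eq_zero_iff k c _).2 rfl, map_zero, sub_zero]
  unfold Lam
  rw [Finset.sum_eq_single (fun _ => 0)]
  · rw [evp_monomial]
    simp
  · intro κ _ hκ
    rw [Finset.prod_eq_zero (i := fun _ => 0)
      (Finset.mem_erase.2 ⟨hκ.symm, Finset.mem_univ _⟩) h0, mul_zero]
  · intro h; exact absurd (Finset.mem_univ _) h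

lemma prod_lam_ne_zero :
    ∏ κ' ∈ Finset.univ.erase (fun _ => 0), lam k c (0 : ℂ) κ' ≠ 0 := by
  rw [Finset.prod_ne_zero_iff]
  intro κ hκ
  unfold lam
  rw [sub_zero]
  simp only [Algebra.algebraMap_self, RingHom.id_apply]
  intro h
  exact (Finset.mem_erase.1 hκ).1 ((alp_eq_zero_iff k c κ).1 h)

end nat

section main

variable {k c : ℕ}

/-- The specialisation of the coordinate ring to the base family over `ℂ[s]`. -/
noncomputable def phi (k c : ℕ) : CR (k + 1) (c + 2) →ₐ[ℂ] Polynomial ℂ :=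
  MvPolynomial.aeval (fun m : Expo (k + 1) (c + 2) =>
    MvPolynomial.coeff m.1 (baseForm k c (Polynomial.X : Polynomial ℂ)))

lemma map_phi_gen : MvPolynomial.map (phi k c : CR (k + 1) (c + 2) →+* Polynomial ℂ)
    (gen (k + 1) (c + 2)) = baseForm k c (Polynomial.X : Polynomial ℂ) := by
  rw [gen, map_formOf]
  have : ∀ m : Expo (k + 1) (c + 2), (phi k c : CR (k + 1) (c + 2) →+* Polynomial ℂ) (X m) =
      MvPolynomial.coeff m.1 (baseForm k c (Polynomial.X : Polynomial ℂ)) := by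
    intro m
    change phi k c (X m) = _
    simp [phi]
  simp only [this]
  exact formOf_coeff (baseForm_homog k c _)

/-- Evaluating `phi` at `s`. -/
lemma eval_phi (s : ℂ) (P : CR (k + 1) (c + 2)) :
    Polynomial.aeval s (phi k c P) = evalAt P (baseForm k c s) := by
  have h1 : ((Polynomial.aeval s : Polynomial ℂ →ₐ[ℂ] ℂ).comp (phi k c)) =
      MvPolynomial.aeval (fun m : Expo (k + 1) (c + 2) =>
        MvPolynomial.coeff m.1 (baseForm k c s)) := by
    apply MvPolynomial.algHom_ext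
    intro m
    have h2 := map_baseForm k c (Polynomial.aeval s : Polynomial ℂ →ₐ[ℂ] ℂ) Polynomial.X
    rw [Polynomial.aeval_X] at h2
    rw [← h2]
    simp [phi, MvPolynomial.coeff_map]
  have h3 := congrArg (fun g : CR (k + 1) (c + 2) →ₐ[ℂ] ℂ => g P) h1
  simpa [evalAt, MvPolynomial.aeval_def] using h3

variable {Δ : CR (k + 1) (c + 2)} {N : ℕ}
  {Cm : Matrix (Fin (k + 1)) (Fin (k + 1)) (MvPolynomial (Fin (k + 1)) (CR (k + 1) (c + 2)))}

lemma evalAt_base_zero (hΔ : IsDiscriminant Δ) : evalAt Δ (baseForm k c (0 : ℂ)) = 0 :=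
  (hΔ.2 _ (baseForm_homog k c 0)).2 (singular_zero k c)

/-- The key local computation: `h · P_i = q · Δ^(N n)` with `q(f_0) = 1` and `Δ² ∤ h`. -/
lemma exists_h (hk : 1 ≤ k) (hc : 1 ≤ c) (hΔ : IsDiscriminant Δ) (hN : 1 ≤ N)
    (hC : ∀ j, Cm.mulVec (Fv (gen (k + 1) (c + 2))) j = C (Δ ^ N) * X j ^ N)
    {i : Fin (k + 1) →₀ ℕ} (hi : i.degree = (k + 1) * c) :
    ∃ h q : CR (k + 1) (c + 2), ¬ Δ ^ 2 ∣ h ∧
      h * PiF Cm N (monomial i 1) = q * Δ ^ (N * (k + 1)) := by
  set G := gen (k + 1) (c + 2) with hG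
  set ρ : CR (k + 1) (c + 2) →ₐ[ℂ] ℂ := MvPolynomial.aeval (fun m : Expo (k + 1) (c + 2) =>
        MvPolynomial.coeff m.1 (baseForm k c (0 : ℂ))) with hρ
  have hρspec : ∀ P, ρ P = evalAt P (baseForm k c (0 : ℂ)) := by
    intro P
    simp [hρ, evalAt, MvPolynomial.aeval_def]
  have hρG : MvPolynomial.map (ρ : CR (k + 1) (c + 2) →+* ℂ) G = baseForm k c (0 : ℂ) := by
    have h1 : (ρ : CR (k + 1) (c + 2) →+* ℂ) = spec (c + 2) (baseForm k c (0 : ℂ)) := by
      ext P <;> simp [hρ, spec]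
    rw [h1]
    exact map_spec_gen (baseForm_homog k c 0)
  have hle : c + 1 ≤ (k + 1) * c := by nlinarith
  have hih : (monomial i 1 : MvPolynomial (Fin (k + 1)) (CR (k + 1) (c + 2))).IsHomogeneous
      ((k + 1) * c) := isHomogeneous_monomial _ hi
  obtain ⟨q, hq1, hq2⟩ := nakayama_ideal ρ (ν := (k + 1) * c) (e := c + 1) hle
    (F := fun j => pderiv j G) (fun j => isHomogeneous_pderiv gen_homog j)
    (u := monomial i 1) hih (by
      intro m
      obtain ⟨x, hx⟩ := span_base i m.1 hi m.2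
      refine ⟨x, ?_⟩
      have e1 : MvPolynomial.map (ρ : CR (k + 1) (c + 2) →+* ℂ) (monomial i 1) =
          monomial i 1 := by
        rw [MvPolynomial.map_monomial, map_one]
      rw [e1]
      have e2 : (fun j => MvPolynomial.map (ρ : CR (k + 1) (c + 2) →+* ℂ) (pderiv j G)) =
          fun j => pderiv j (baseForm k c (0 : ℂ)) := by
        funext j
        rw [← pderiv_map, hρG]
      rw [e2]
      exact hx)
  have hHh : (hess G).IsHomogeneous ((k + 1) * c) := hess_homog gen_homog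
  obtain ⟨h, hh⟩ := hq2 (hess G) hHh
  refine ⟨h, q, ?_, ?_⟩
  · -- the functional
    intro hdvd
    set φ := phi k c with hφ
    set T : Polynomial ℂ := Polynomial.X with hT
    have h1 : MvPolynomial.map (φ : CR (k + 1) (c + 2) →+* Polynomial ℂ)
        (C q * hess G - C h * monomial i 1) ∈ jac (baseForm k c T) := by
      have := Ideal.mem_map_of_mem
        (MvPolynomial.map (φ : CR (k + 1) (c + 2) →+* Polynomial ℂ)) hh
      rw [Ideal.map_span, ← Set.range_comp] at this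
      have e3 : (⇑(MvPolynomial.map (φ : CR (k + 1) (c + 2) →+* Polynomial ℂ)) ∘
          fun j => pderiv j G) = fun j => pderiv j (baseForm k c T) := by
        funext j
        rw [Function.comp_apply, ← pderiv_map, map_phi_gen]
      rw [e3] at this
      exact this
    rw [map_sub, map_mul, map_mul, MvPolynomial.map_C, MvPolynomial.map_C, ← map_hess,
      map_phi_gen, MvPolynomial.map_monomial, map_one (φ : CR (k + 1) (c + 2) →+* Polynomial ℂ)] at h1
    have hhom : (C ((φ : CR (k + 1) (c + 2) →+* Polynomial ℂ) q) * hess (baseForm k c T) -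
        C ((φ : CR (k + 1) (c + 2) →+* Polynomial ℂ) h) * monomial i 1).IsHomogeneous
        ((k + 1) * c) := by
      apply IsHomogeneous.sub
      · have := (isHomogeneous_C (Fin (k + 1))
          ((φ : CR (k + 1) (c + 2) →+* Polynomial ℂ) q)).mul
          (hess_homog (baseForm_homog k c T))
        rwa [zero_add] at this
      · have := (isHomogeneous_C (Fin (k + 1))
          ((φ : CR (k + 1) (c + 2) →+* Polynomial ℂ) h)).mul
          (isHomogeneous_monomial (1 : Polynomial ℂ) hi)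
        rwa [zero_add] at this
    have h2 := Lam_kills k c hk hc T hhom h1
    rw [Lam_sub, Lam_C_mul, Lam_C_mul, Lam_hess, sub_eq_zero] at h2
    -- factor of X in ∏ λ
    have hprod : ∏ κ, lam k c T κ = -T * ∏ κ ∈ Finset.univ.erase (fun _ => 0), lam k c T κ := by
      rw [← Finset.mul_prod_erase Finset.univ _ (Finset.mem_univ (fun _ => 0))]
      congr 1
      unfold lam
      rw [(alp_eq_zero_iff k c _).2 rfl, map_zero, zero_sub]
    have hXΔ : T ∣ φ Δ := by
      rw [hT, Polynomial.X_dvd_iff, Polynomial.coeff_zero_eq_eval_zero]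
      have := eval_phi (k := k) (c := c) 0 Δ
      rw [evalAt_base_zero hΔ, Polynomial.coe_aeval_eq_eval] at this
      exact this
    have hX2 : T ^ 2 ∣ φ h := by
      calc T ^ 2 ∣ (φ Δ) ^ 2 := pow_dvd_pow_of_dvd hXΔ 2
        _ = φ (Δ ^ 2) := by rw [map_pow]
        _ ∣ φ h := map_dvd φ hdvd
    have h3 : T ^ 2 ∣ (φ : CR (k + 1) (c + 2) →+* Polynomial ℂ) q *
        (-algebraMap ℂ (Polynomial ℂ) ((c + 1) ^ (2 * k + 2)) * ∏ κ, lam k c T κ) := by
      rw [h2]
      exact Dvd.dvd.mul_right hX2 _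
    rw [hprod] at h3
    set R := ∏ κ ∈ Finset.univ.erase (fun _ => 0), lam k c T κ with hR
    have h4 : T * T ∣ T * (φ q * algebraMap ℂ (Polynomial ℂ) ((c + 1) ^ (2 * k + 2)) * R) := by
      convert h3 using 1
      · ring
      · change _ = φ q * _
        ring
    rw [mul_dvd_mul_iff_left Polynomial.X_ne_zero, hT, Polynomial.X_dvd_iff,
      Polynomial.coeff_zero_eq_eval_zero, Polynomial.eval_mul, Polynomial.eval_mul] at h4
    have hq0 : Polynomial.eval 0 (φ q) = 1 := by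
      have := eval_phi (k := k) (c := c) 0 q
      rw [← hρspec, hq1, Polynomial.coe_aeval_eq_eval] at this
      exact this
    have hR0 : Polynomial.eval 0 R ≠ 0 := by
      have h5 : Polynomial.eval 0 R = ∏ κ ∈ Finset.univ.erase (fun _ => 0), lam k c (0 : ℂ) κ := by
        have h6 : Polynomial.aeval (0 : ℂ) R =
            ∏ κ ∈ Finset.univ.erase (fun _ => 0), lam k c (0 : ℂ) κ := by
          rw [hR, map_prod]
          refine Finset.prod_congr rfl fun κ _ => ?_
          rw [map_lam, hT, Polynomial.aeval_X]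
        rw [← h6, Polynomial.coe_aeval_eq_eval]
      rw [h5]
      exact prod_lam_ne_zero k c
    have hc0 : ((c : ℂ) + 1) ≠ 0 := Nat.cast_add_one_ne_zero c
    rw [hq0, one_mul] at h4
    rcases mul_eq_zero.1 h4 with h5 | h5
    · simp at h5
      exact hc0 h5
    · exact hR0 h5
  · have hh' : C q * hess G - C h * monomial i 1 ∈ Ideal.span (Set.range (Fv G)) := by
      rw [span_Fv (by omega) gen_homog]
      exact hh
    have h1 := PiF_eq_zero_of_mem hN hC hh'
    rw [PiF_sub, PiF_C_mul, PiF_C_mul, PiF_gen_hess hN hC, sub_eq_zero] at h1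
    exact h1.symm

/-- Divisibility. -/
lemma dvd_P (hk : 1 ≤ k) (hc : 1 ≤ c) (hΔ : IsDiscriminant Δ) (hN : 1 ≤ N)
    (hC : ∀ j, Cm.mulVec (Fv (gen (k + 1) (c + 2))) j = C (Δ ^ N) * X j ^ N)
    {i : Fin (k + 1) →₀ ℕ} (hi : i.degree = (k + 1) * c) :
    Δ ^ (N * (k + 1) - 1) ∣ PiF Cm N (monomial i 1) := by
  obtain ⟨h, q, hh, heq⟩ := exists_h hk hc hΔ hN hC hi
  have hprime : Prime Δ := hΔ.1.prime
  have hpos : 1 ≤ N * (k + 1) := Nat.mul_pos hN (Nat.succ_pos k)
  have hd : Δ ^ (N * (k + 1)) ∣ h * PiF Cm N (monomial i 1) := by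
    rw [heq]; exact Dvd.intro_left _ rfl
  by_cases h1 : Δ ∣ h
  · obtain ⟨h', rfl⟩ := h1
    have h2 : ¬ Δ ∣ h' := by
      intro h3
      apply hh
      rw [pow_two]
      exact mul_dvd_mul_left _ h3
    have h3 : Δ * Δ ^ (N * (k + 1) - 1) ∣ Δ * (h' * PiF Cm N (monomial i 1)) := by
      rw [← pow_succ', Nat.sub_add_cancel hpos, ← mul_assoc]
      exact hd
    rw [mul_dvd_mul_iff_left hprime.ne_zero] at h3
    exact hprime.pow_dvd_of_dvd_mul_left _ h2 h3
  · exact (pow_dvd_pow _ (Nat.sub_le _ _)).trans (hprime.pow_dvd_of_dvd_mul_left _ h1 hd)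

end main

/-- `μ_i(f)` is well defined for nondegenerate `f`. -/
theorem exists_unique_mu {n d : ℕ} (hd : 2 ≤ d) {Δ : CR n d}
    (hΔ : ∀ f : MvPolynomial (Fin n) ℂ, f.IsHomogeneous d → IsSingular f → evalAt Δ f = 0)
    {f : MvPolynomial (Fin n) ℂ} (hf : f.IsHomogeneous d) (hne : evalAt Δ f ≠ 0)
    {i : Fin n →₀ ℕ} (hi : i.degree = n * (d - 2)) : ∃! x : ℂ, IsMu f i x := by
  obtain ⟨N, hN, hNe, Cm, hCh, hC⟩ := exists_transition hd hΔ
  have hne' : evalAt Δ f ^ (N * n) ≠ 0 := pow_ne_zero _ hne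
  refine ⟨evalAt (PiF Cm N (monomial i 1)) f / evalAt Δ f ^ (N * n), ?_, ?_⟩
  · simp only
    rw [isMu_iff hd hN hNe hCh hC hf hne hi]
    field_simp
  · intro y hy
    rw [isMu_iff hd hN hNe hCh hC hf hne hi] at hy
    rw [← hy]
    field_simp

lemma mu_spec {n d : ℕ} (hd : 2 ≤ d) {Δ : CR n d}
    (hΔ : ∀ f : MvPolynomial (Fin n) ℂ, f.IsHomogeneous d → IsSingular f → evalAt Δ f = 0)
    {f : MvPolynomial (Fin n) ℂ} (hf : f.IsHomogeneous d) (hne : evalAt Δ f ≠ 0)
    {i : Fin n →₀ ℕ} (hi : i.degree = n * (d - 2)) : IsMu f i (mu f i) := by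
  have h := (exists_unique_mu hd hΔ hf hne hi).exists
  unfold mu
  rw [dif_pos h]
  exact h.choose_spec

/-- `Δ μ_i` is a polynomial function. -/
theorem isPolyMul_one {k c : ℕ} (hk : 1 ≤ k) (hc : 1 ≤ c) {Δ : CR (k + 1) (c + 2)}
    (hΔ : IsDiscriminant Δ) {i : Fin (k + 1) →₀ ℕ} (hi : i.degree = (k + 1) * c) :
    IsPolyMul Δ i 1 := by
  have hΔ' : ∀ f : MvPolynomial (Fin (k + 1)) ℂ, f.IsHomogeneous (c + 2) → IsSingular f →
      evalAt Δ f = 0 := fun f hf hs => (hΔ.2 f hf).2 hs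
  obtain ⟨N, hN, hNe, Cm, hCh, hC⟩ := exists_transition (by omega) hΔ'
  obtain ⟨P, hP⟩ := dvd_P hk hc hΔ hN hC hi
  refine ⟨P, fun f hf hne => ?_⟩
  have h1 := (isMu_iff (by omega) hN hNe hCh hC hf hne (i := i) hi (mu f i)).1
    (mu_spec (by omega) hΔ' hf hne hi)
  rw [hP] at h1
  have h2 : evalAt (Δ ^ (N * (k + 1) - 1) * P) f =
      evalAt Δ f ^ (N * (k + 1) - 1) * evalAt P f := by
    simp [evalAt]
  have hpos : 1 ≤ N * (k + 1) := Nat.mul_pos hN (Nat.succ_pos k)
  rw [h2] at h1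
  have h3 : evalAt Δ f ^ (N * (k + 1)) = evalAt Δ f ^ (N * (k + 1) - 1) * evalAt Δ f := by
    rw [← pow_succ, Nat.sub_add_cancel hpos]
  rw [h3] at h1
  have hne' : evalAt Δ f ^ (N * (k + 1) - 1) ≠ 0 := pow_ne_zero _ hne
  rw [zpow_one]
  apply mul_left_cancel₀ hne'
  rw [← h1]; ring

/-- The lower bound. -/
theorem one_le_of_isPolyMul {k c : ℕ} (hk : 1 ≤ k) (hc : 1 ≤ c) {Δ : CR (k + 1) (c + 2)}
    (hΔ : IsDiscriminant Δ) {i : Fin (k + 1) →₀ ℕ} (hi : i.degree = (k + 1) * c) {p : ℤ}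
    (hp : IsPolyMul Δ i p) : 1 ≤ p := by
  by_contra hcon
  push Not at hcon
  have hΔ' : ∀ f : MvPolynomial (Fin (k + 1)) ℂ, f.IsHomogeneous (c + 2) → IsSingular f →
      evalAt Δ f = 0 := fun f hf hs => (hΔ.2 f hf).2 hs
  obtain ⟨m, hm⟩ : ∃ m : ℕ, p = -(m : ℤ) := ⟨(-p).toNat, by omega⟩
  obtain ⟨P, hP⟩ := hp
  set T : Polynomial ℂ := Polynomial.X with hT
  set L := Lam k c T (monomial i 1) with hL
  set K : Polynomial ℂ := -algebraMap ℂ (Polynomial ℂ) ((c + 1) ^ (2 * k + 2)) with hK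
  set Λ := ∏ κ, lam k c T κ with hΛ
  set Q := phi k c (Δ ^ m * P) with hQ
  have heval : ∀ s : ℂ, Polynomial.aeval s ((L - Q * (K * Λ)) * Λ) = 0 := by
    intro s
    have hΛs : Polynomial.aeval s Λ = ∏ κ, lam k c s κ := by
      rw [hΛ, map_prod]
      exact Finset.prod_congr rfl fun κ _ => by rw [map_lam, hT, Polynomial.aeval_X]
    by_cases hs : ∀ κ : Fin k → Fin (c + 1), lam k c s κ ≠ 0
    · have hns := not_singular k c hs
      have hf := baseForm_homog k c s
      have hne : evalAt Δ (baseForm k c s) ≠ 0 := fun h => hns ((hΔ.2 _ hf).1 h)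
      have h1 := hP _ hf hne
      have h2 := mu_spec (by omega) hΔ' hf hne (i := i) hi
      unfold IsMu at h2
      rw [Ideal.Quotient.eq] at h2
      have hhom : ((monomial i 1 : MvPolynomial (Fin (k + 1)) ℂ) -
          C (mu (baseForm k c s) i) * hess (baseForm k c s)).IsHomogeneous ((k + 1) * c) := by
        apply (isHomogeneous_monomial _ hi).sub
        have := (isHomogeneous_C (Fin (k + 1)) (mu (baseForm k c s) i)).mul (hess_homog hf)
        rwa [zero_add] at this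
      have h3 := Lam_kills k c hk hc s hhom h2
      rw [Lam_sub, Lam_C_mul, Lam_hess, sub_eq_zero] at h3
      have h4 : mu (baseForm k c s) i = evalAt (Δ ^ m * P) (baseForm k c s) := by
        have e1 : evalAt (Δ ^ m * P) (baseForm k c s) =
            evalAt Δ (baseForm k c s) ^ m * evalAt P (baseForm k c s) := by simp [evalAt]
        rw [e1, ← h1, hm, _root_.zpow_neg, zpow_natCast, ← mul_assoc,
          mul_inv_cancel₀ (pow_ne_zero _ hne), one_mul]
      have hLs : Polynomial.aeval s L = Lam k c s (monomial i 1) := by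
        rw [hL, map_Lam, hT, Polynomial.aeval_X, MvPolynomial.map_monomial]
        simp
      rw [map_mul, map_sub, map_mul, map_mul, hLs, hΛs, hQ, eval_phi, h3, h4]
      have hKs : Polynomial.aeval s K = -algebraMap ℂ ℂ ((c + 1) ^ (2 * k + 2)) := by
        rw [hK, map_neg, AlgHom.commutes]
      rw [hKs]
      ring
    · push Not at hs
      obtain ⟨κ, hκ⟩ := hs
      have : Polynomial.aeval s Λ = 0 := by
        rw [hΛs]
        exact Finset.prod_eq_zero (Finset.mem_univ κ) hκ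
      rw [map_mul, this, mul_zero]
  have hzero : (L - Q * (K * Λ)) * Λ = 0 := by
    apply Polynomial.funext
    intro s
    have := heval s
    simpa [Polynomial.aeval_def] using this
  have hΛne : Λ ≠ 0 := by
    rw [hΛ, Finset.prod_ne_zero_iff]
    intro κ _ h0
    have : T = Polynomial.C (alp k c κ) := by
      unfold lam at h0
      rw [sub_eq_zero] at h0
      exact h0.symm
    have h2 := congrArg Polynomial.natDegree this
    rw [hT, Polynomial.natDegree_X, Polynomial.natDegree_C] at h2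
    omega
  have h5 : L - Q * (K * Λ) = 0 := by
    rcases mul_eq_zero.1 hzero with h | h
    · exact h
    · exact absurd h hΛne
  have h6 := congrArg (Polynomial.aeval (0 : ℂ)) h5
  have hΛ0 : Polynomial.aeval (0 : ℂ) Λ = 0 := by
    rw [hΛ, map_prod]
    apply Finset.prod_eq_zero (Finset.mem_univ (fun _ => 0))
    rw [map_lam, hT, Polynomial.aeval_X]
    unfold lam
    rw [(alp_eq_zero_iff k c _).2 rfl, map_zero, sub_zero]
  have hL0 : Polynomial.aeval (0 : ℂ) L = Lam k c (0 : ℂ) (monomial i 1) := by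
    rw [hL, map_Lam, hT, Polynomial.aeval_X, MvPolynomial.map_monomial]
    simp
  rw [map_sub, map_mul, map_mul, hΛ0, mul_zero, mul_zero, sub_zero, hL0, map_zero,
    Lam_zero_monomial] at h6
  exact prod_lam_ne_zero k c h6

theorem isLeast_one {n d : ℕ} (hn : 2 ≤ n) (hd : 3 ≤ d) {Δ : CR n d}
    (hΔ : IsDiscriminant Δ) {i : Fin n →₀ ℕ} (hi : i.degree = n * (d - 2)) :
    IsLeast {p : ℤ | IsPolyMul Δ i p} 1 := by
  obtain ⟨k, rfl⟩ : ∃ k, n = k + 1 := ⟨n - 1, by omega⟩
  obtain ⟨c, rfl⟩ : ∃ c, d = c + 2 := ⟨d - 2, by omega⟩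
  have hi' : i.degree = (k + 1) * c := by
    rw [hi]; congr 1
  exact ⟨isPolyMul_one (by omega) (by omega) hΔ hi',
    fun p hp => one_le_of_isPolyMul (by omega) (by omega) hΔ hi' hp⟩

theorem pInv_eq_one {n d : ℕ} (hn : 2 ≤ n) (hd : 3 ≤ d) {Δ : CR n d}
    (hΔ : IsDiscriminant Δ) : pInv Δ = 1 := by
  have hne : Nonempty (Expo n (n * (d - 2))) :=
    ⟨⟨Finsupp.single ⟨0, by omega⟩ (n * (d - 2)), by rw [Finsupp.degree_single]⟩⟩
  unfold pInv
  have : ∀ i : Expo n (n * (d - 2)), pExp Δ i.1 = 1 := fun i =>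
    (isLeast_one hn hd hΔ i.2).csInf_eq
  simp only [this]
  exact ciSup_const

end Pool.Agent.W431.PInv
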