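import Pool.Agent.W431.PInv.Defs
import Pool.Agent.W431.PInv.Duality

/-!
# The generic form and the Nullstellensatz step
-/

namespace Pool.Agent.W431.PInv

open MvPolynomial Matrix

section general

variable {B : Type*} [CommRing B] {n : ℕ}

/-- The vector `Hess · X`, equal to `(d-1) ∇f` for a form `f` of degree `d`. -/
noncomputable def Fv (f : MvPolynomial (Fin n) B) : Fin n → MvPolynomial (Fin n) B :=
  fun k => (hessM f).mulVec (fun j => X j) k

lemma isHomogeneous_pderiv {f : MvPolynomial (Fin n) B} {d : ℕ} (hf : f.IsHomogeneous d)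
    (j : Fin n) : (pderiv j f).IsHomogeneous (d - 1) := hf.pderiv

lemma hessM_homog {f : MvPolynomial (Fin n) B} {d : ℕ} (hf : f.IsHomogeneous d) (i j : Fin n) :
    (hessM f i j).IsHomogeneous (d - 2) := by
  have h1 := isHomogeneous_pderiv (isHomogeneous_pderiv hf j) i
  exact h1

lemma hess_homog {f : MvPolynomial (Fin n) B} {d : ℕ} (hf : f.IsHomogeneous d) :
    (hess f).IsHomogeneous (n * (d - 2)) := by
  have := isHomogeneous_det (hessM_homog hf)
  rwa [Fintype.card_fin] at this

lemma pderiv_comm' (f : MvPolynomial (Fin n) B) (i j : Fin n) :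
    pderiv i (pderiv j f) = pderiv j (pderiv i f) := by
  classical
  induction f using MvPolynomial.induction_on' with
  | monomial m r =>
    simp only [pderiv_monomial]
    by_cases hij : i = j
    · subst hij; rfl
    · have e1 : (m - Finsupp.single j 1 : Fin n →₀ ℕ) i = m i := by
        simp [Ne.symm hij]
      have e2 : (m - Finsupp.single i 1 : Fin n →₀ ℕ) j = m j := by
        simp [hij]
      rw [e1, e2, tsub_tsub, tsub_tsub, add_comm (Finsupp.single j 1), mul_assoc, mul_assoc,
        mul_comm ((m j : ℕ) : B)]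
  | add p q hp hq => simp only [map_add, hp, hq]

lemma Fv_eq {f : MvPolynomial (Fin n) B} {d : ℕ} (hf : f.IsHomogeneous d) (k : Fin n) :
    Fv f k = (d - 1) • pderiv k f := by
  have h := (isHomogeneous_pderiv hf k).sum_X_mul_pderiv
  rw [← h]
  simp only [Fv, Matrix.mulVec, dotProduct, hessM, Matrix.of_apply]
  refine Finset.sum_congr rfl fun j _ => ?_
  rw [mul_comm, pderiv_comm']

lemma map_hessM {B' : Type*} [CommRing B'] (φ : B →+* B') (f : MvPolynomial (Fin n) B) :
    hessM (MvPolynomial.map φ f) = (MvPolynomial.map φ).mapMatrix (hessM f) := by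
  ext i j
  simp [hessM, pderiv_map]

lemma map_hess {B' : Type*} [CommRing B'] (φ : B →+* B') (f : MvPolynomial (Fin n) B) :
    hess (MvPolynomial.map φ f) = MvPolynomial.map φ (hess f) := by
  rw [hess, map_hessM, hess, RingHom.map_det]

lemma map_Fv {B' : Type*} [CommRing B'] (φ : B →+* B') (f : MvPolynomial (Fin n) B) (k : Fin n) :
    Fv (MvPolynomial.map φ f) k = MvPolynomial.map φ (Fv f k) := by
  simp [Fv, map_hessM, Matrix.mulVec, dotProduct]

lemma span_Fv [Algebra ℂ B] {f : MvPolynomial (Fin n) B} {d : ℕ} (hd : 2 ≤ d)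
    (hf : f.IsHomogeneous d) : Ideal.span (Set.range (Fv f)) = jac f := by
  have hunit : IsUnit (((d - 1 : ℕ) : MvPolynomial (Fin n) B)) := by
    have h1 : IsUnit (((d - 1 : ℕ) : ℂ)) := by
      rw [isUnit_iff_ne_zero]
      have : d - 1 ≠ 0 := by omega
      exact_mod_cast this
    have := h1.map (algebraMap ℂ (MvPolynomial (Fin n) B))
    simpa using this
  apply le_antisymm
  · rw [Ideal.span_le]
    rintro _ ⟨k, rfl⟩
    rw [SetLike.mem_coe, Fv_eq hf k, nsmul_eq_mul]
    exact Ideal.mul_mem_left _ _ (Ideal.subset_span ⟨k, rfl⟩)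
  · rw [jac, Ideal.span_le]
    rintro _ ⟨k, rfl⟩
    obtain ⟨u, hu⟩ := hunit
    have h1 : (pderiv k f : MvPolynomial (Fin n) B) = (u⁻¹ : (MvPolynomial (Fin n) B)ˣ) * Fv f k := by
      rw [Fv_eq hf k, nsmul_eq_mul, ← hu, Units.inv_mul_cancel_left]
    rw [SetLike.mem_coe]
    change pderiv k f ∈ _
    rw [h1]
    exact Ideal.mul_mem_left _ _ (Ideal.subset_span ⟨k, rfl⟩)

lemma homogeneousComponent_mul_of_homog {σ : Type*} {F : MvPolynomial σ B} {e : ℕ}
    (hF : F.IsHomogeneous e) (k : ℕ) (a : MvPolynomial σ B) :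
    homogeneousComponent (k + e) (a * F) = homogeneousComponent k a * F := by
  induction a using MvPolynomial.induction_on' with
  | monomial m r =>
    have h1 : (monomial m r : MvPolynomial σ B).IsHomogeneous m.degree :=
      isHomogeneous_monomial r rfl
    rw [homogeneousComponent_of_mem (n := m.degree + e) (h1.mul hF),
      homogeneousComponent_of_mem (n := m.degree) h1]
    by_cases h : k = m.degree
    · rw [if_pos h, if_pos (by rw [h])]
    · rw [if_neg h, if_neg (by omega), zero_mul]
  | add p q hp hq => rw [add_mul, map_add, hp, hq, map_add, add_mul]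

lemma exists_homog_coeffs {σ ι : Type*} [Fintype ι] {F : ι → MvPolynomial σ B} {e N : ℕ}
    (hF : ∀ i, (F i).IsHomogeneous e) (hN : e ≤ N) {P : MvPolynomial σ B}
    (hP : P.IsHomogeneous N) (hmem : P ∈ Ideal.span (Set.range F)) :
    ∃ c : ι → MvPolynomial σ B, (∀ i, (c i).IsHomogeneous (N - e)) ∧ ∑ i, c i * F i = P := by
  rw [Ideal.mem_span_range_iff_exists_fun] at hmem
  obtain ⟨c, hc⟩ := hmem
  refine ⟨fun i => homogeneousComponent (N - e) (c i),
    fun i => homogeneousComponent_isHomogeneous _ _, ?_⟩
  have h1 : homogeneousComponent N P = P := homogeneousComponent_eq_self hP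
  rw [← h1, ← hc, map_sum]
  refine Finset.sum_congr rfl fun i _ => ?_
  rw [← homogeneousComponent_mul_of_homog (hF i), Nat.sub_add_cancel hN]

end general

section generic

variable {n d : ℕ}

instance : Finite (Expo n d) := by
  have : Function.Injective (fun (m : Expo n d) (i : Fin n) =>
      (⟨m.1 i, by
        have : m.1 i ≤ m.1.degree := Finsupp.le_degree i m.1
        have := m.2
        omega⟩ : Fin (d + 1))) := by
    intro a b hab
    apply Subtype.ext
    ext i
    have := congrFun hab i
    simpa using this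
  exact Finite.of_injective _ this

noncomputable instance : Fintype (Expo n d) := Fintype.ofFinite _

/-- The coordinate ring of the space of forms. -/
abbrev CR (n d : ℕ) : Type := MvPolynomial (Expo n d) ℂ

/-- The form with coefficients `c`. -/
noncomputable def formOf {B : Type*} [CommRing B] (c : Expo n d → B) : MvPolynomial (Fin n) B :=
  ∑ m : Expo n d, monomial m.1 (c m)

lemma formOf_homog {B : Type*} [CommRing B] (c : Expo n d → B) :
    (formOf c).IsHomogeneous d :=
  IsHomogeneous.sum _ _ _ fun m _ => isHomogeneous_monomial _ m.2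

lemma coeff_formOf {B : Type*} [CommRing B] (c : Expo n d → B) (m : Expo n d) :
    coeff m.1 (formOf c) = c m := by
  classical
  rw [formOf, coeff_sum, Finset.sum_eq_single m]
  · simp
  · intro b _ hb
    rw [coeff_monomial, if_neg]
    intro h; exact hb (Subtype.ext h)
  · intro h; exact absurd (Finset.mem_univ _) h

lemma formOf_coeff {B : Type*} [CommRing B] {f : MvPolynomial (Fin n) B}
    (hf : f.IsHomogeneous d) : formOf (fun m : Expo n d => coeff m.1 f) = f := by
  ext m
  by_cases hm : m.degree = d
  · exact coeff_formOf _ ⟨m, hm⟩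
  · rw [(formOf_homog _).coeff_eq_zero hm, hf.coeff_eq_zero hm]

lemma map_formOf {B B' : Type*} [CommRing B] [CommRing B'] (φ : B →+* B') (c : Expo n d → B) :
    MvPolynomial.map φ (formOf c) = formOf (fun m => φ (c m)) := by
  simp [formOf, map_sum, map_monomial]

/-- The generic form. -/
noncomputable def gen (n d : ℕ) : MvPolynomial (Fin n) (CR n d) := formOf (fun m => X m)

lemma gen_homog : (gen n d).IsHomogeneous d := formOf_homog _

/-- specialisation at `f`. -/
noncomputable def spec (d : ℕ) (f : MvPolynomial (Fin n) ℂ) : CR n d →+* ℂ :=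
  MvPolynomial.eval (fun m : Expo n d => MvPolynomial.coeff m.1 f)

lemma map_spec_gen {f : MvPolynomial (Fin n) ℂ} (hf : f.IsHomogeneous d) :
    MvPolynomial.map (spec d f) (gen n d) = f := by
  rw [gen, map_formOf]
  simp only [spec, eval_X]
  exact formOf_coeff hf

lemma isSingular_of_spec (c : Expo n d → ℂ) (z : Fin n → ℂ) (hz : z ≠ 0)
    (h : ∀ j, MvPolynomial.eval z (pderiv j (formOf c)) = 0) : IsSingular (formOf c) :=
  ⟨z, hz, h⟩

/-- **Nullstellensatz step.** -/
lemma exists_pow_mem {Δ : CR n d}
    (hΔ : ∀ f : MvPolynomial (Fin n) ℂ, f.IsHomogeneous d → IsSingular f → evalAt Δ f = 0)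
    (i : Fin n) : ∃ N : ℕ, (C Δ * X i : MvPolynomial (Fin n) (CR n d)) ^ N ∈ jac (gen n d) := by
  let e := sumAlgEquiv ℂ (Fin n) (Expo n d)
  -- evaluation
  have hev : ∀ (x : (Fin n ⊕ Expo n d) → ℂ) (G : MvPolynomial (Fin n) (CR n d)),
      aeval x (e.symm G) = MvPolynomial.eval (fun j => x (Sum.inl j))
        (MvPolynomial.map (MvPolynomial.eval (fun m => x (Sum.inr m))) G) := by
    intro x G
    have : ((aeval x : MvPolynomial (Fin n ⊕ Expo n d) ℂ →ₐ[ℂ] ℂ) :
        MvPolynomial (Fin n ⊕ Expo n d) ℂ →+* ℂ).comp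
        (e.symm : MvPolynomial (Fin n) (CR n d) →+* MvPolynomial (Fin n ⊕ Expo n d) ℂ) =
        (MvPolynomial.eval (fun j => x (Sum.inl j))).comp
          (MvPolynomial.map (MvPolynomial.eval (fun m => x (Sum.inr m)))) := by
      apply MvPolynomial.ringHom_ext
      · intro r
        have h2 : ((((aeval x : MvPolynomial (Fin n ⊕ Expo n d) ℂ →ₐ[ℂ] ℂ) :
            MvPolynomial (Fin n ⊕ Expo n d) ℂ →+* ℂ).comp
            (e.symm : MvPolynomial (Fin n) (CR n d) →+* MvPolynomial (Fin n ⊕ Expo n d) ℂ)).comp
            (C : CR n d →+* _)) = MvPolynomial.eval (fun m => x (Sum.inr m)) := by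
          apply MvPolynomial.ringHom_ext
          · intro r
            simp [e]
          · intro m
            simp [e]
        have h3 := congrArg (fun g : CR n d →+* ℂ => g r) h2
        simpa using h3
      · intro j
        simp [e]
    exact congrArg (fun g : MvPolynomial (Fin n) (CR n d) →+* ℂ => g G) this
  have hmem : e.symm (C Δ * X i) ∈ (Ideal.span (Set.range fun j =>
      e.symm (pderiv j (gen n d)))).radical := by
    rw [← vanishingIdeal_zeroLocus_eq_radical (K := ℂ), mem_vanishingIdeal_iff]
    intro x hx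
    rw [hev, map_mul, map_C, map_X, map_mul, eval_C, eval_X]
    by_cases hz : (fun j => x (Sum.inl j)) = 0
    · have := congrFun hz i
      simp only [Pi.zero_apply] at this
      rw [this, mul_zero]
    · set f := formOf (fun m : Expo n d => x (Sum.inr m)) with hf
      have hsing : IsSingular f := by
        refine ⟨fun j => x (Sum.inl j), hz, fun j => ?_⟩
        have h1 := hx _ (Ideal.subset_span ⟨j, rfl⟩)
        simp only at h1
        rw [hev, ← pderiv_map, gen, map_formOf] at h1
        simpa using h1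
      have h2 := hΔ f (formOf_homog _) hsing
      have h3 : evalAt Δ f = MvPolynomial.eval (fun m => x (Sum.inr m)) Δ := by
        unfold evalAt
        congr 2
        funext m
        exact coeff_formOf _ m
      rw [← h3, h2, zero_mul]
  obtain ⟨N, hN⟩ := hmem
  refine ⟨N, ?_⟩
  rw [← map_pow, Ideal.mem_span_range_iff_exists_fun] at hN
  obtain ⟨c, hc⟩ := hN
  have h5 := congrArg e hc
  rw [map_sum, AlgEquiv.apply_symm_apply] at h5
  rw [← h5]
  refine Ideal.sum_mem _ fun j _ => ?_
  rw [map_mul, AlgEquiv.apply_symm_apply]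
  exact Ideal.mul_mem_left _ _ (Ideal.subset_span ⟨j, rfl⟩)

end generic

end Pool.Agent.W431.PInv
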