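import Pool.Agent.W431.PInv.Trans

/-!
# The Nakayama step
-/

namespace Pool.Agent.W431.PInv

open MvPolynomial

lemma homog_eq_sum {A : Type*} [CommRing A] {n ν : ℕ} {b : MvPolynomial (Fin n) A}
    (hb : b.IsHomogeneous ν) :
    b = ∑ m : Expo n ν, coeff m.1 b • (monomial m.1 (1 : A)) := by
  conv_lhs => rw [← formOf_coeff hb]
  unfold formOf
  refine Finset.sum_congr rfl fun m _ => ?_
  rw [smul_monomial, smul_eq_mul, mul_one]

theorem nakayama_homog {A : Type*} [CommRing A] (ρ : A →+* ℂ) {n ν : ℕ}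
    (S : Submodule A (MvPolynomial (Fin n) A))
    (h : ∀ m : Expo n ν, ∃ s ∈ S, s.IsHomogeneous ν ∧
      MvPolynomial.map ρ (monomial m.1 1 - s) = 0) :
    ∃ q : A, ρ q = 1 ∧ ∀ b : MvPolynomial (Fin n) A, b.IsHomogeneous ν → q • b ∈ S := by
  set W : Submodule A (MvPolynomial (Fin n) A) := homogeneousSubmodule (Fin n) A ν with hW
  set N : Submodule A (MvPolynomial (Fin n) A ⧸ S) := W.map S.mkQ with hN
  have hWspan : W = Submodule.span A (Set.range fun m : Expo n ν => monomial m.1 (1 : A)) := by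
    apply le_antisymm
    · intro b hb
      rw [homog_eq_sum (hb : b.IsHomogeneous ν)]
      exact Submodule.sum_mem _ fun m _ =>
        Submodule.smul_mem _ _ (Submodule.subset_span ⟨m, rfl⟩)
    · rw [Submodule.span_le]
      rintro _ ⟨m, rfl⟩
      exact isHomogeneous_monomial _ m.2
  have hfg : N.FG := by
    apply Submodule.FG.map
    rw [hWspan]
    exact Submodule.fg_span (Set.finite_range _)
  have hle : N ≤ (RingHom.ker ρ) • N := by
    rw [hN, hWspan, Submodule.map_span, Submodule.span_le]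
    rintro _ ⟨_, ⟨m, rfl⟩, rfl⟩
    obtain ⟨s, hs, hsh, hs0⟩ := h m
    set t := (monomial m.1 1 - s : MvPolynomial (Fin n) A) with ht
    have hth : t.IsHomogeneous ν := (isHomogeneous_monomial _ m.2).sub hsh
    have e1 : S.mkQ (monomial m.1 1) = S.mkQ t := by
      rw [ht, map_sub]
      have : S.mkQ s = 0 := by simpa using hs
      rw [this, sub_zero]
    have e2 : S.mkQ t = ∑ m' : Expo n ν, coeff m'.1 t • S.mkQ (monomial m'.1 (1 : A)) := by
      conv_lhs => rw [homog_eq_sum hth]
      rw [map_sum]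
      simp only [map_smul]
    change S.mkQ (monomial m.1 (1 : A)) ∈ _
    rw [e1, e2]
    refine Submodule.sum_mem _ fun m' _ => ?_
    apply Submodule.smul_mem_smul
    · rw [RingHom.mem_ker]
      have := congrArg (coeff m'.1) hs0
      rwa [coeff_map, coeff_zero] at this
    · apply Submodule.subset_span
      exact ⟨_, ⟨m', rfl⟩, rfl⟩
  obtain ⟨q, hq1, hq2⟩ :=
    Submodule.exists_sub_one_mem_and_smul_eq_zero_of_fg_of_le_smul (RingHom.ker ρ) N hfg hle
  refine ⟨q, ?_, fun b hb => ?_⟩
  · rw [RingHom.mem_ker, map_sub, map_one, sub_eq_zero] at hq1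
    exact hq1
  · have := hq2 (S.mkQ b) (Submodule.mem_map_of_mem hb)
    rw [← map_smul, Submodule.mkQ_apply, Submodule.Quotient.mk_eq_zero] at this
    exact this

/-- The form used at the base point: an ideal generated by forms together with one more form. -/
theorem nakayama_ideal {A : Type*} [CommRing A] [Algebra ℂ A] (ρ : A →ₐ[ℂ] ℂ) {n ν e : ℕ}
    (hν : e ≤ ν) {F : Fin n → MvPolynomial (Fin n) A} (hF : ∀ i, (F i).IsHomogeneous e)
    {u : MvPolynomial (Fin n) A} (hu : u.IsHomogeneous ν)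
    (h : ∀ m : Expo n ν, ∃ c : ℂ, (monomial m.1 1 : MvPolynomial (Fin n) ℂ) -
      C c * MvPolynomial.map (ρ : A →+* ℂ) u ∈
        Ideal.span (Set.range fun i => MvPolynomial.map (ρ : A →+* ℂ) (F i))) :
    ∃ q : A, ρ q = 1 ∧ ∀ b : MvPolynomial (Fin n) A, b.IsHomogeneous ν →
      ∃ β : A, C q * b - C β * u ∈ Ideal.span (Set.range F) := by
  set S : Submodule A (MvPolynomial (Fin n) A) :=
    (Ideal.span (Set.range F)).restrictScalars A ⊔ Submodule.span A {u} with hS
  have key := nakayama_homog (ρ : A →+* ℂ) (ν := ν) S (by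
    intro m
    obtain ⟨c, hc⟩ := h m
    have hρF : ∀ i, (MvPolynomial.map (ρ : A →+* ℂ) (F i)).IsHomogeneous e := fun i => (hF i).map _
    have hhom : ((monomial m.1 1 : MvPolynomial (Fin n) ℂ) -
      C c * MvPolynomial.map (ρ : A →+* ℂ) u).IsHomogeneous ν := by
      apply (isHomogeneous_monomial _ m.2).sub
      have := (isHomogeneous_C (Fin n) c).mul (hu.map (ρ : A →+* ℂ))
      rwa [zero_add] at this
    obtain ⟨g, hg1, hg2⟩ := exists_homog_coeffs hρF hν hhom hc
    set s : MvPolynomial (Fin n) A := C (algebraMap ℂ A c) * u +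
      ∑ i, MvPolynomial.map (algebraMap ℂ A) (g i) * F i with hs
    refine ⟨s, ?_, ?_, ?_⟩
    · rw [hs, add_comm]
      apply Submodule.add_mem_sup
      · exact Ideal.sum_mem _ fun i _ => Ideal.mul_mem_left _ _ (Ideal.subset_span ⟨i, rfl⟩)
      · rw [← smul_eq_C_mul]
        exact Submodule.smul_mem _ _ (Submodule.mem_span_singleton_self u)
    · apply IsHomogeneous.add
      · have := (isHomogeneous_C (Fin n) (algebraMap ℂ A c)).mul hu
        rwa [zero_add] at this
      · refine IsHomogeneous.sum _ _ _ fun i _ => ?_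
        have := ((hg1 i).map (algebraMap ℂ A)).mul (hF i)
        rwa [Nat.sub_add_cancel hν] at this
    · have hcomp : ((ρ : A →+* ℂ).comp (algebraMap ℂ A)) = RingHom.id ℂ := by
        ext z
        exact ρ.commutes z
      rw [hs, map_sub, map_add, map_mul, MvPolynomial.map_C, map_sum, MvPolynomial.map_monomial,
        map_one (ρ : A →+* ℂ)]
      have e1 : ∀ i, MvPolynomial.map (ρ : A →+* ℂ)
          (MvPolynomial.map (algebraMap ℂ A) (g i) * F i) =
          g i * MvPolynomial.map (ρ : A →+* ℂ) (F i) := by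
        intro i
        rw [map_mul, MvPolynomial.map_map, hcomp, MvPolynomial.map_id]
      have e2 : (ρ : A →+* ℂ) (algebraMap ℂ A c) = c := ρ.commutes c
      rw [Finset.sum_congr rfl fun i _ => e1 i, hg2, e2]
      ring)
  obtain ⟨q, hq1, hq2⟩ := key
  refine ⟨q, hq1, fun b hb => ?_⟩
  have h1 := hq2 b hb
  rw [hS, Submodule.mem_sup] at h1
  obtain ⟨y, hy, z, hz, hyz⟩ := h1
  rw [Submodule.mem_span_singleton] at hz
  obtain ⟨β, rfl⟩ := hz
  refine ⟨β, ?_⟩
  rw [← smul_eq_C_mul, ← smul_eq_C_mul, ← hyz, add_sub_cancel_right]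
  exact hy

end Pool.Agent.W431.PInv
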