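import Pool.Agent.W431.PInv.Generic

/-!
# The transition matrix and the numbers `μ_i(f)`
-/

namespace Pool.Agent.W431.PInv

open MvPolynomial Matrix

variable {n d : ℕ}

lemma evalAt_eq_spec (P : CR n d) (f : MvPolynomial (Fin n) ℂ) : evalAt P f = spec d f P := rfl

lemma exists_transition {Δ : CR n d} (hd : 2 ≤ d)
    (hΔ : ∀ f : MvPolynomial (Fin n) ℂ, f.IsHomogeneous d → IsSingular f → evalAt Δ f = 0) :
    ∃ N : ℕ, 1 ≤ N ∧ d - 1 ≤ N ∧ ∃ Cm : Matrix (Fin n) (Fin n) (MvPolynomial (Fin n) (CR n d)),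
      (∀ i j, (Cm i j).IsHomogeneous (N - (d - 1))) ∧
        ∀ k, Cm.mulVec (Fv (gen n d)) k = C (Δ ^ N) * X k ^ N := by
  choose Ni hNi using exists_pow_mem (n := n) (d := d) hΔ
  set N := (∑ i, Ni i) + d with hN
  have hle : ∀ i, Ni i ≤ N := fun i =>
    (Finset.single_le_sum (f := Ni) (fun _ _ => Nat.zero_le _) (Finset.mem_univ i)).trans
      (Nat.le_add_right _ _)
  have hmem : ∀ i, (C (Δ ^ N) * X i ^ N : MvPolynomial (Fin n) (CR n d)) ∈
      Ideal.span (Set.range (Fv (gen n d))) := by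
    intro i
    rw [span_Fv hd gen_homog, C_pow, ← mul_pow, ← Nat.sub_add_cancel (hle i), pow_add]
    exact Ideal.mul_mem_left _ _ (hNi i)
  have hFh : ∀ k, (Fv (gen n d) k).IsHomogeneous (d - 1) := by
    intro k
    have h1 : (hessM (gen n d)).mulVec (fun j => X j) k =
        ∑ j, hessM (gen n d) k j * X j := rfl
    change ((hessM (gen n d)).mulVec (fun j => X j) k).IsHomogeneous (d - 1)
    rw [h1]
    refine IsHomogeneous.sum _ _ _ fun j _ => ?_
    have h2 := (hessM_homog (gen_homog (n := n) (d := d)) k j).mul (isHomogeneous_X (CR n d) j)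
    have h3 : d - 2 + 1 = d - 1 := by omega
    rwa [h3] at h2
  refine ⟨N, by omega, by omega, ?_⟩
  have hc : ∀ i, ∃ c : Fin n → MvPolynomial (Fin n) (CR n d),
      (∀ j, (c j).IsHomogeneous (N - (d - 1))) ∧
        ∑ j, c j * Fv (gen n d) j = C (Δ ^ N) * X i ^ N := by
    intro i
    refine exists_homog_coeffs hFh (by omega) ?_ (hmem i)
    have := (isHomogeneous_C (Fin n) (Δ ^ N)).mul ((isHomogeneous_X (CR n d) i).pow N)
    simpa using this
  choose c hc1 hc2 using hc
  exact ⟨Matrix.of c, fun i j => hc1 i j, fun k => hc2 k⟩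

section pointwise

variable {Δ : CR n d} {N : ℕ} {Cm : Matrix (Fin n) (Fin n) (MvPolynomial (Fin n) (CR n d))}

lemma PiF_map {R R' : Type*} [CommRing R] [CommRing R'] (φ : R →+* R')
    (M : Matrix (Fin n) (Fin n) (MvPolynomial (Fin n) R)) (N : ℕ) (b : MvPolynomial (Fin n) R) :
    PiF ((MvPolynomial.map φ).mapMatrix M) N (MvPolynomial.map φ b) = φ (PiF M N b) := by
  unfold PiF
  rw [← RingHom.map_det, ← map_mul, coeff_map]

lemma transition_map {B : Type*} [CommRing B] (φ : CR n d →+* B)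
    (hC : ∀ k, Cm.mulVec (Fv (gen n d)) k = C (Δ ^ N) * X k ^ N) (k : Fin n) :
    ((MvPolynomial.map φ).mapMatrix Cm).mulVec (Fv (MvPolynomial.map φ (gen n d))) k =
      C (φ Δ ^ N) * X k ^ N := by
  have h := congrArg (MvPolynomial.map φ) (hC k)
  rw [map_mul, MvPolynomial.map_C, map_pow φ, map_pow (MvPolynomial.map φ),
    MvPolynomial.map_X] at h
  rw [← h]
  simp only [Matrix.mulVec, dotProduct, map_sum, map_mul, RingHom.mapMatrix_apply,
    Matrix.map_apply, map_Fv]

/-- Uniqueness and existence of `μ_i(f)`, with a formula. -/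
theorem isMu_iff (hd : 2 ≤ d) (hN : 1 ≤ N) (hNe : d - 1 ≤ N)
    (hCh : ∀ i j, (Cm i j).IsHomogeneous (N - (d - 1)))
    (hC : ∀ k, Cm.mulVec (Fv (gen n d)) k = C (Δ ^ N) * X k ^ N)
    {f : MvPolynomial (Fin n) ℂ} (hf : f.IsHomogeneous d) (hne : evalAt Δ f ≠ 0)
    {i : Fin n →₀ ℕ} (hi : i.degree = n * (d - 2)) (c : ℂ) :
    IsMu f i c ↔ c * evalAt Δ f ^ (N * n) = evalAt (PiF Cm N (monomial i 1)) f := by
  set Cf := (MvPolynomial.map (spec d f)).mapMatrix Cm with hCf
  have hgen := map_spec_gen hf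
  have hCf' : ∀ k, Cf.mulVec (Fv f) k = C (spec d f Δ ^ N) * X k ^ N := by
    intro k
    have := transition_map (spec d f) hC k
    rwa [hgen] at this
  have hCfh : ∀ i j, (Cf i j).IsHomogeneous (N - (d - 1)) := fun i j => (hCh i j).map _
  have hjac : Ideal.span (Set.range (Fv f)) = jac f := span_Fv hd hf
  have hH : ∀ k, (hessM f).mulVec (fun j => X j) k = Fv f k := fun k => rfl
  have hPH : PiF Cf N (hess f) = (spec d f Δ ^ N) ^ n := by
    have := PiF_det hN hCf' hH
    rwa [Fintype.card_fin] at this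
  have hPb : PiF Cf N (monomial i 1) = spec d f (PiF Cm N (monomial i 1)) := by
    rw [← PiF_map, MvPolynomial.map_monomial, map_one (spec d f)]
  have hne' : (spec d f Δ ^ N) ^ n ≠ 0 := pow_ne_zero _ (pow_ne_zero _ hne)
  have hbh : (monomial i 1 : MvPolynomial (Fin n) ℂ).IsHomogeneous (n * (d - 2)) :=
    isHomogeneous_monomial _ hi
  have hdual := socle_duality (ν := n * (d - 2)) hN hCf' hCfh (by
      rw [Fintype.card_fin, ← mul_add]
      congr 1; omega) hH (hess_homog hf) hbh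
  rw [hjac, Fintype.card_fin] at hdual
  unfold IsMu
  rw [Ideal.Quotient.eq, evalAt_eq_spec, evalAt_eq_spec, pow_mul, ← hPb]
  constructor
  · intro h
    rw [← hjac] at h
    have h1 := PiF_eq_zero_of_mem hN hCf' h
    rw [PiF_sub, PiF_C_mul, hPH, sub_eq_zero] at h1
    exact h1.symm
  · intro h
    set D := (spec d f Δ ^ N) ^ n with hD
    have h2 : (monomial i 1 - C c * hess f : MvPolynomial (Fin n) ℂ) =
        C (D⁻¹ * D⁻¹) * (C D * (C D * monomial i 1 - C (PiF Cf N (monomial i 1)) * hess f)) := by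
      rw [← h]
      have e1 : (C (D⁻¹ * D⁻¹) * C D * C D : MvPolynomial (Fin n) ℂ) = 1 := by
        rw [← C_mul, ← C_mul, ← C_1]
        congr 1
        field_simp
      have e2 : (C (c * D) : MvPolynomial (Fin n) ℂ) = C c * C D := C_mul
      rw [e2]
      calc (monomial i 1 - C c * hess f : MvPolynomial (Fin n) ℂ)
          = (C (D⁻¹ * D⁻¹) * C D * C D) * (monomial i 1 - C c * hess f) := by rw [e1, one_mul]
        _ = _ := by ring
    rw [h2]
    exact Ideal.mul_mem_left _ _ hdual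

/-- In `A[z]`, the functional applied to the generic Hessian. -/
lemma PiF_gen_hess (hN : 1 ≤ N)
    (hC : ∀ k, Cm.mulVec (Fv (gen n d)) k = C (Δ ^ N) * X k ^ N) :
    PiF Cm N (hess (gen n d)) = Δ ^ (N * n) := by
  have := PiF_det (Hm := hessM (gen n d)) hN hC (fun k => rfl)
  rw [Fintype.card_fin] at this
  rw [pow_mul]
  exact this

end pointwise

end Pool.Agent.W431.PInv
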